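import Pool.Agent.Helper21K2.Est

/-!
The bound of the production (helper21).
-/

set_option autoImplicit false

open MeasureTheory Set Filter Topology
open scoped ContDiff ENNReal NNReal

namespace Pool.Agent.Helper21K2

open H459R3.NS Pool.Agent.W268.NS

theorem HH_mono {a b : K3 → ℂ} (hb : Rap b) {s c : ℝ} (hs : 0 ≤ s)
    (h : ∀ k, (N k : ℝ) ^ (2 * s) * ‖a k‖ ^ 2 ≤ c * ((N k : ℝ) ^ (2 * s) * ‖b k‖ ^ 2)) :
    HH s a ≤ c * HH s b := by
  have hsum := (rap_sq hb (σ := 2 * s) (by positivity)).mul_left c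
  unfold HH
  rw [← tsum_mul_left]
  exact Summable.tsum_le_tsum h (hsum.of_nonneg_of_le (fun k => by positivity) h) hsum

theorem HH_shift {a b : K3 → ℂ} (hb : Rap b) {s : ℝ} (hs : 0 ≤ s)
    (h : ∀ k, ‖a k‖ ≤ 16 * (N k * ‖b k‖)) : HH s a ≤ 16 ^ 2 * HH (1 + s) b := by
  have h1 : ∀ k, (N k : ℝ) ^ (2 * s) * ‖a k‖ ^ 2 ≤
      16 ^ 2 * ((N k : ℝ) ^ (2 * (1 + s)) * ‖b k‖ ^ 2) := by
    intro k
    rcases Nat.eq_zero_or_pos (N k) with h0 | h0
    · have h2 := h k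
      rw [h0, Nat.cast_zero, zero_mul, mul_zero] at h2
      have h3 : ‖a k‖ = 0 := le_antisymm h2 (norm_nonneg _)
      rw [h3, zero_pow two_ne_zero, mul_zero]
      positivity
    · have h3 : (0 : ℝ) < N k := by exact_mod_cast h0
      have e : (N k : ℝ) ^ (2 * (1 + s)) = (N k : ℝ) ^ (2 * s) * (N k : ℝ) ^ 2 := by
        rw [← Real.rpow_natCast, ← Real.rpow_add h3]
        congr 1
        push_cast
        ring
      rw [e]
      calc (N k : ℝ) ^ (2 * s) * ‖a k‖ ^ 2 ≤ (N k : ℝ) ^ (2 * s) * (16 * (N k * ‖b k‖)) ^ 2 := by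
            gcongr
            exact h k
        _ = _ := by ring
  have hsum := (rap_sq hb (σ := 2 * (1 + s)) (by positivity)).mul_left (16 ^ 2)
  unfold HH
  rw [← tsum_mul_left]
  exact Summable.tsum_le_tsum h1 (hsum.of_nonneg_of_le (fun k => by positivity) h1) hsum

section

variable {v : V → V} (hv : ∀ i, SP (fun y => v y i))

include hv

theorem HH_XY {θ : ℝ} (h0 : 0 ≤ θ) (h1 : θ ≤ 1) (i : Fin 3) :
    √(HH (1 / 2 + θ) (fr fun y => v y i)) ≤ √(XX v) ^ (1 - θ) * √(YY v) ^ θ := by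
  have hx : HH (1 / 2) (fr fun y => v y i) ≤ XX v := by
    refine (HH_le (hv i) (by norm_num)).trans ?_
    rw [show (2 : ℝ) * (1 / 2) = 1 by norm_num]
    exact Finset.single_le_sum (f := fun i => BB 1 (fun y => v y i) fun y => v y i)
      (fun _ _ => BB_nn _ _) (Finset.mem_univ i)
  have hy : HH (3 / 2) (fr fun y => v y i) ≤ YY v := by
    refine (HH_le (hv i) (by norm_num)).trans ?_
    rw [show (2 : ℝ) * (3 / 2) = 3 by norm_num]
    exact Finset.single_le_sum (f := fun i => BB 3 (fun y => v y i) fun y => v y i)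
      (fun _ _ => BB_nn _ _) (Finset.mem_univ i)
  have h2 := interp (rap_fr (hv i)) h0 h1
  have hX := XX_nn v
  have hY := YY_nn v
  calc √(HH (1 / 2 + θ) (fr fun y => v y i)) ≤ √(XX v ^ (1 - θ) * YY v ^ θ) := by
        refine Real.sqrt_le_sqrt (h2.trans ?_)
        have a1 := HH_nn (1 / 2) (fr fun y => v y i)
        have a2 := HH_nn (3 / 2) (fr fun y => v y i)
        exact mul_le_mul (Real.rpow_le_rpow a1 hx (by linarith)) (Real.rpow_le_rpow a2 hy h0)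
          (Real.rpow_nonneg a2 _) (Real.rpow_nonneg hX _)
    _ = √(XX v) ^ (1 - θ) * √(YY v) ^ θ := by
        rw [Real.sqrt_mul (Real.rpow_nonneg hX _), Real.sqrt_eq_rpow, Real.sqrt_eq_rpow,
          Real.sqrt_eq_rpow, Real.sqrt_eq_rpow, ← Real.rpow_mul hX, ← Real.rpow_mul hY,
          ← Real.rpow_mul hX, ← Real.rpow_mul hY, mul_comm (1 - θ), mul_comm θ]

theorem ad_w {θ : ℝ} (h0 : 0 ≤ θ) (h1 : θ ≤ 1) (i : Fin 3) :
    Ad (1 / 2 + θ) θ 16 √(XX v) √(YY v) (fun x => v x i - ∫ y in cube, v y i) := by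
  refine ⟨(hv i).cont.sub continuous_const, ({0} : Set K3)ᶜ.indicator (fr fun y => v y i),
    (rap_fr (hv i)).ind _, ?_, fun x => ?_, ?_⟩
  · rw [indicator_of_notMem]
    simp
  · have h2 := S_split (rap_fr (hv i)) {0} x
    rw [S_fr (hv i)] at h2
    have h3 : S (({0} : Set K3).indicator (fr fun y => v y i)) x
        = ((∫ y in cube, v y i : ℝ) : ℂ) := by
      unfold S
      rw [tsum_eq_single 0 fun k hk => by
        rw [indicator_of_notMem (show k ∉ ({0} : Set K3) from hk), zero_mul]]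
      rw [indicator_of_mem (mem_singleton _), ee_zero, mul_one]
      unfold fr fc
      rw [← integral_complex_ofReal]
      congr 1
      funext y
      rw [neg_zero, ee_zero, one_mul]
    have h4 : S (({0} : Set K3)ᶜ.indicator (fr fun y => v y i)) x
        = ((v x i - ∫ y in cube, v y i : ℝ) : ℂ) := by
      push_cast
      rw [h2, h3]
      ring
    rw [h4, Complex.norm_real, Real.norm_eq_abs]
  · have h5 : HH (1 / 2 + θ) (({0} : Set K3)ᶜ.indicator (fr fun y => v y i))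
        ≤ 1 * HH (1 / 2 + θ) (fr fun y => v y i) := by
      refine HH_mono (rap_fr (hv i)) (by positivity) fun k => ?_
      rw [one_mul]
      gcongr
      exact norm_indicator_le' _ _ _
    rw [one_mul] at h5
    refine (Real.sqrt_le_sqrt h5).trans ((HH_XY hv h0 h1 i).trans ?_)
    exact le_mul_of_one_le_left (by positivity) (by norm_num)

theorem ad_of {θ : ℝ} (h0 : 1 / 2 ≤ θ) (h1 : θ ≤ 1) (i : Fin 3) {F : V → ℝ} (hF : Continuous F)
    {a : K3 → ℂ} (ha : Rap a) (h00 : a 0 = 0) (hS : ∀ x, ‖S a x‖ = |F x|)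
    (hb : ∀ k, ‖a k‖ ≤ 16 * (N k * ‖fr (fun y => v y i) k‖)) :
    Ad (θ - 1 / 2) θ 16 √(XX v) √(YY v) F := by
  refine ⟨hF, a, ha, h00, hS, ?_⟩
  have h2 := HH_shift (rap_fr (hv i)) (s := θ - 1 / 2) (by linarith) hb
  rw [show 1 + (θ - 1 / 2) = 1 / 2 + θ by ring] at h2
  calc √(HH (θ - 1 / 2) a) ≤ √(16 ^ 2 * HH (1 / 2 + θ) (fr fun y => v y i)) :=
        Real.sqrt_le_sqrt h2
    _ = 16 * √(HH (1 / 2 + θ) (fr fun y => v y i)) := by
        rw [Real.sqrt_mul (by norm_num), Real.sqrt_sq (by norm_num)]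
    _ ≤ _ := by
        gcongr
        exact HH_XY hv (by linarith) h1 i

theorem ad_pd {θ : ℝ} (h0 : 1 / 2 ≤ θ) (h1 : θ ≤ 1) (j i : Fin 3) :
    Ad (θ - 1 / 2) θ 16 √(XX v) √(YY v) (pd j fun y => v y i) := by
  refine ad_of hv h0 h1 i ((hv i).pd j).cont ((rap_fr (hv i)).D j) ?_ (fun x => ?_) fun k => ?_
  · simp [D]
  · rw [← fr_pd (hv i), S_fr ((hv i).pd j), Complex.norm_real, Real.norm_eq_abs]
  · refine (norm_D_le _ _ _).trans ?_
    have := Real.pi_lt_four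
    gcongr
    linarith

theorem ad_Lam {θ : ℝ} (h0 : 1 / 2 ≤ θ) (h1 : θ ≤ 1) (i : Fin 3) :
    Ad (θ - 1 / 2) θ 16 √(XX v) √(YY v) (Lam 1 fun y => v y i) := by
  refine ad_of hv h0 h1 i (Lam_cont zero_le_one (hv i)) (rap_cf (rap_fr (hv i)) zero_le_one) ?_
    (fun x => ?_) fun k => ?_
  · have h2 : mm 0 = 0 := by simp [mm]
    rw [cf, h2, Real.rpow_one]
    simp
  · rw [← Lam_eq, Complex.norm_real, Real.norm_eq_abs]
  · rw [norm_cf, Real.rpow_one]
    calc mm k * ‖fr (fun y => v y i) k‖ ≤ 16 * N k * ‖fr (fun y => v y i) k‖ := by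
          gcongr
          exact mm_le k
      _ = _ := by ring

end

/-- The Euclidean norm. -/
noncomputable def en (w : V) : ℝ := √(dotProduct w w)

theorem dot3 (a b : V) : dotProduct a b = a 0 * b 0 + a 1 * b 1 + a 2 * b 2 := by
  simp [dotProduct, Fin.sum_univ_three]

theorem en_cross_le (b c : V) : en (crossProduct b c) ≤ (∑ i, |b i|) * ∑ j, |c j| := by
  have hB : 0 ≤ ∑ i, |b i| := Finset.sum_nonneg fun _ _ => abs_nonneg _
  have hC : 0 ≤ ∑ i, |c i| := Finset.sum_nonneg fun _ _ => abs_nonneg _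
  unfold en
  rw [← Real.sqrt_sq (mul_nonneg hB hC)]
  refine Real.sqrt_le_sqrt ?_
  have sq_le : ∀ d : V, d 0 ^ 2 + d 1 ^ 2 + d 2 ^ 2 ≤ (∑ i, |d i|) ^ 2 := by
    intro d
    rw [Fin.sum_univ_three, ← sq_abs (d 0), ← sq_abs (d 1), ← sq_abs (d 2)]
    nlinarith [mul_nonneg (abs_nonneg (d 0)) (abs_nonneg (d 1)),
      mul_nonneg (abs_nonneg (d 0)) (abs_nonneg (d 2)),
      mul_nonneg (abs_nonneg (d 1)) (abs_nonneg (d 2))]
  have h1 := sq_le b
  have h2 := sq_le c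
  have h3 : dotProduct (crossProduct b c) (crossProduct b c)
      = (b 0 ^ 2 + b 1 ^ 2 + b 2 ^ 2) * (c 0 ^ 2 + c 1 ^ 2 + c 2 ^ 2)
        - (b 0 * c 0 + b 1 * c 1 + b 2 * c 2) ^ 2 := by
    rw [dot3, cross_apply]
    simp only [Matrix.cons_val_zero, Matrix.cons_val_one, Matrix.cons_val]
    ring
  rw [h3, mul_pow]
  have h4 : (b 0 ^ 2 + b 1 ^ 2 + b 2 ^ 2) * (c 0 ^ 2 + c 1 ^ 2 + c 2 ^ 2)
      ≤ (∑ i, |b i|) ^ 2 * (∑ i, |c i|) ^ 2 :=
    mul_le_mul h1 h2 (by positivity) (by positivity)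
  nlinarith [sq_nonneg (b 0 * c 0 + b 1 * c 1 + b 2 * c 2)]

theorem en_cross_cont {P Q : V → V} (hP : Continuous P) (hQ : Continuous Q) :
    Continuous fun x => en (crossProduct (P x) (Q x)) := by
  unfold en
  simp_rw [dot3, cross_apply]
  simp only [Matrix.cons_val_zero, Matrix.cons_val_one, Matrix.cons_val]
  fun_prop

/-- The estimate of one term. -/
theorem cross_bd {s₁ s₂ : ℝ} (h1 : 0 ≤ s₁) (h1' : s₁ < 3 / 2) (h2 : 0 ≤ s₂) (h2' : s₂ < 3 / 2)
    (ι κ : Type) [Fintype ι] [Fintype κ] :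
    ∃ C : ℝ, 0 ≤ C ∧ ∀ (p : ℝ≥0∞), p ≠ 0 → th p = s₁ + s₂ → ∀ (θ₁ θ₂ X Y β : ℝ)
      (h : V → ℝ) (P Q : V → V) (F : ι → V → ℝ) (G : κ → V → ℝ), 0 ≤ θ₁ → θ₁ ≤ 1 → 0 ≤ θ₂ →
      θ₂ ≤ 1 → 0 ≤ X → 0 ≤ Y → 0 ≤ β → Continuous P → Continuous Q →
      AEStronglyMeasurable h (volume.restrict cube) →
      eLpNorm h p (volume.restrict cube) ≤ ENNReal.ofReal β →
      (∀ i, Ad s₁ θ₁ 16 X Y (F i)) → (∀ j, Ad s₂ θ₂ 16 X Y (G j)) →
      (∀ x, ∑ i, |P x i| ≤ ∑ i, |F i x|) → (∀ x, ∑ i, |Q x i| ≤ ∑ j, |G j x|) →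
      IntegrableOn (fun x => h x * en (crossProduct (P x) (Q x))) cube ∧
      |∫ x in cube, h x * en (crossProduct (P x) (Q x))|
        ≤ C * (β * (X ^ (2 - (θ₁ + θ₂)) * Y ^ (θ₁ + θ₂))) := by
  obtain ⟨C, hC, hb⟩ := tril h1 h1' h2 h2'
  refine ⟨Fintype.card ι * Fintype.card κ * (C * 16 ^ 2), by positivity, ?_⟩
  intro p hp0 hp θ₁ θ₂ X Y β h P Q F G hθ1 hθ1' hθ2 hθ2' hX hY hβ hP hQ hm hh hF hG hPF hQG
  obtain ⟨R, hR⟩ : ∃ R : ℝ, R = β * (X ^ (2 - (θ₁ + θ₂)) * Y ^ (θ₁ + θ₂)) := ⟨_, rfl⟩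
  have hR0 : 0 ≤ R := by rw [hR]; positivity
  have hone : ∀ i j, ∫⁻ x in cube, ‖h x‖ₑ * (‖F i x‖ₑ * ‖G j x‖ₑ) ≤
      ENNReal.ofReal (C * 16 ^ 2 * R) := by
    intro i j
    rw [hR]
    exact hb p hp0 hp θ₁ θ₂ 16 X Y β h (F i) (G j) hθ1 hθ1' hθ2 hθ2' (by norm_num) hX hY hβ hm hh
      (hF i) (hG j)
  have hpt : ∀ x, ‖h x * en (crossProduct (P x) (Q x))‖ₑ ≤
      ∑ i, ∑ j, ‖h x‖ₑ * (‖F i x‖ₑ * ‖G j x‖ₑ) := by
    intro x
    have h3 : en (crossProduct (P x) (Q x)) ≤ ∑ i, ∑ j, |F i x| * |G j x| := by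
      refine (en_cross_le _ _).trans ?_
      rw [← Finset.sum_mul_sum]
      exact mul_le_mul (hPF x) (hQG x) (Finset.sum_nonneg fun _ _ => abs_nonneg _)
        (Finset.sum_nonneg fun _ _ => abs_nonneg _)
    have h4 : ‖h x * en (crossProduct (P x) (Q x))‖ ≤ ∑ i, ∑ j, |h x| * (|F i x| * |G j x|) := by
      have h7 : 0 ≤ en (crossProduct (P x) (Q x)) := Real.sqrt_nonneg _
      rw [norm_mul, Real.norm_eq_abs, Real.norm_eq_abs, abs_of_nonneg h7]
      refine (mul_le_mul_of_nonneg_left h3 (abs_nonneg _)).trans (le_of_eq ?_)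
      rw [Finset.mul_sum]
      exact Finset.sum_congr rfl fun i _ => Finset.mul_sum _ _ _
    rw [← ofReal_norm]
    refine (ENNReal.ofReal_le_ofReal h4).trans (le_of_eq ?_)
    rw [ENNReal.ofReal_sum_of_nonneg fun i _ => Finset.sum_nonneg fun j _ => by positivity]
    refine Finset.sum_congr rfl fun i _ => ?_
    rw [ENNReal.ofReal_sum_of_nonneg fun j _ => by positivity]
    refine Finset.sum_congr rfl fun j _ => ?_
    rw [ENNReal.ofReal_mul (abs_nonneg _), ENNReal.ofReal_mul (abs_nonneg _), ← Real.norm_eq_abs,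
      ← Real.norm_eq_abs, ← Real.norm_eq_abs, ofReal_norm, ofReal_norm, ofReal_norm]
  have hmm : AEStronglyMeasurable (fun x => h x * en (crossProduct (P x) (Q x)))
      (volume.restrict cube) := hm.mul (en_cross_cont hP hQ).aestronglyMeasurable
  have hmi : ∀ i j, AEMeasurable (fun x => ‖h x‖ₑ * (‖F i x‖ₑ * ‖G j x‖ₑ))
      (volume.restrict cube) := fun i j =>
    hm.enorm.mul ((hF i).1.enorm.measurable.mul (hG j).1.enorm.measurable).aemeasurable
  have htot : ∫⁻ x in cube, ‖h x * en (crossProduct (P x) (Q x))‖ₑ ≤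
      ENNReal.ofReal (Fintype.card ι * Fintype.card κ * (C * 16 ^ 2) * R) := by
    calc ∫⁻ x in cube, ‖h x * en (crossProduct (P x) (Q x))‖ₑ
        ≤ ∫⁻ x in cube, ∑ i, ∑ j, ‖h x‖ₑ * (‖F i x‖ₑ * ‖G j x‖ₑ) := lintegral_mono hpt
      _ = ∑ i, ∑ j, ∫⁻ x in cube, ‖h x‖ₑ * (‖F i x‖ₑ * ‖G j x‖ₑ) := by
          rw [lintegral_finsetSum' _ fun i _ => Finset.aemeasurable_fun_sum _ fun j _ => hmi i j]
          refine Finset.sum_congr rfl fun i _ => ?_
          rw [lintegral_finsetSum' _ fun j _ => hmi i j]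
      _ ≤ ∑ _i : ι, ∑ _j : κ, ENNReal.ofReal (C * 16 ^ 2 * R) :=
          Finset.sum_le_sum fun i _ => Finset.sum_le_sum fun j _ => hone i j
      _ = _ := by
          obtain ⟨W, hW⟩ : ∃ W : ℝ, W = C * 16 ^ 2 * R := ⟨_, rfl⟩
          rw [Finset.sum_const, Finset.sum_const, Finset.card_univ, Finset.card_univ,
            nsmul_eq_mul, nsmul_eq_mul, ← mul_assoc,
            show (Fintype.card ι : ℝ) * Fintype.card κ * (C * 16 ^ 2) * R
              = (Fintype.card ι * Fintype.card κ : ℝ) * (C * 16 ^ 2 * R) by ring, ← hW,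
            ENNReal.ofReal_mul (by positivity), ENNReal.ofReal_mul (by positivity),
            ENNReal.ofReal_natCast, ENNReal.ofReal_natCast]
  refine ⟨⟨hmm, htot.trans_lt ENNReal.ofReal_lt_top⟩, ?_⟩
  have h5 := enorm_integral_le_lintegral_enorm (μ := volume.restrict cube)
    (fun x => h x * en (crossProduct (P x) (Q x)))
  rw [← ofReal_norm, Real.norm_eq_abs] at h5
  have h6 := (ENNReal.ofReal_le_ofReal_iff (by positivity)).1 (h5.trans htot)
  rw [← hR]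
  exact h6

end Pool.Agent.Helper21K2
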