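import Pool.Agent.Helper21K2.Cls

/-!
The criterion at the level of the norm of order one half (helper21).
-/

set_option autoImplicit false

open MeasureTheory Set Filter Topology
open scoped ContDiff ENNReal NNReal

namespace Pool.Agent.Helper21K2

open H459R3.NS Pool.Agent.W268.NS

/-- The mean over the period cell. -/
noncomputable def mean (v : V → V) : V := fun i => ∫ y in cube, v y i

theorem sum_vort_le (v : V → V) (x : V) :
    ∑ i, |vort v x i| ≤ ∑ q : Fin 3 × Fin 3, |pd q.1 (fun y => v y q.2) x| := by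
  rw [Fintype.sum_prod_type]
  simp only [Fin.sum_univ_three, vort, gradM, Matrix.of_apply, Matrix.cons_val_zero,
    Matrix.cons_val_one, Matrix.cons_val]
  have h : ∀ a b : ℝ, |a - b| ≤ |a| + |b| := fun a b => by
    have := abs_add_le a (-b)
    rwa [← sub_eq_add_neg, abs_neg] at this
  have h1 := h (pd 1 (fun y => v y 2) x) (pd 2 (fun y => v y 1) x)
  have h2 := h (pd 2 (fun y => v y 0) x) (pd 0 (fun y => v y 2) x)
  have h3 := h (pd 0 (fun y => v y 1) x) (pd 1 (fun y => v y 0) x)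
  have a1 := abs_nonneg (pd 0 (fun y => v y 0) x)
  have a2 := abs_nonneg (pd 1 (fun y => v y 1) x)
  have a3 := abs_nonneg (pd 2 (fun y => v y 2) x)
  linarith

theorem vort_cont {v : V → V} (hv : ∀ i, SP (fun y => v y i)) : Continuous (vort v) :=
  continuous_pi fun i => (sp_vort hv i).cont

theorem LamV_cont {σ : ℝ} (hσ : 0 ≤ σ) {v : V → V} (hv : ∀ i, SP (fun y => v y i)) :
    Continuous (LamV σ v) :=
  continuous_pi fun i => Lam_cont hσ (hv i)

theorem v_cont {v : V → V} (hv : ∀ i, SP (fun y => v y i)) : Continuous v :=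
  continuous_pi fun i => (hv i).cont

/-- The bound of the production. -/
theorem prodH {p₁ p₂ p₃ : ℝ≥0∞} (hp₁ : 3 < p₁) (hp₂ : 3 / 2 < p₂) (hp₂' : p₂ ≤ 6)
    (hp₃ : 3 / 2 < p₃) (hp₃' : p₃ ≤ 6) : ∃ C : ℝ, 0 ≤ C ∧
    ∀ (v : V → V) (c : V) (a b g : V → ℝ) (α β γ κ ν : ℝ), (∀ i, SP (fun y => v y i)) →
      0 ≤ α → 0 ≤ β → 0 ≤ γ → AEStronglyMeasurable a (volume.restrict cube) →
      AEStronglyMeasurable b (volume.restrict cube) →
      AEStronglyMeasurable g (volume.restrict cube) →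
      eLpNorm a p₁ (volume.restrict cube) ≤ ENNReal.ofReal α →
      eLpNorm b p₂ (volume.restrict cube) ≤ ENNReal.ofReal β →
      eLpNorm g p₃ (volume.restrict cube) ≤ ENNReal.ofReal γ →
      (∀ᵐ x ∂(volume.restrict cube), triple (v x - c) (vort v x) (LamV 1 v x)
        ≤ κ * ν * en (LamV (3 / 2) v x) ^ 2
          + a x * en (crossProduct (vort v x) (LamV 1 v x))
          + b x * en (crossProduct (v x - mean v) (LamV 1 v x))
          + g x * en (crossProduct (v x - mean v) (vort v x))) →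
      ∫ x in cube, triple (v x - c) (vort v x) (LamV 1 v x) ≤ κ * ν * YY v
        + C * (α * (√(XX v) ^ (2 - (1 + th p₁)) * √(YY v) ^ (1 + th p₁)))
        + C * (β * (√(XX v) ^ (2 - th p₂) * √(YY v) ^ th p₂))
        + C * (γ * (√(XX v) ^ (2 - th p₃) * √(YY v) ^ th p₃)) := by
  -- exponents
  have hth1 := th_nonneg p₁
  have hth1' := th_lt_one hp₁
  have hrange : ∀ p : ℝ≥0∞, 3 / 2 < p → p ≤ 6 → 1 / 2 ≤ th p ∧ th p < 2 ∧ p ≠ 0 := by
    intro p hp hp'
    have hp0 : p ≠ 0 := (lt_of_le_of_lt (by positivity) hp).ne'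
    refine ⟨?_, th_lt_two hp, hp0⟩
    unfold th
    have h1 : (6 : ℝ≥0∞)⁻¹ ≤ p⁻¹ := ENNReal.inv_le_inv.2 hp'
    have h2 := (ENNReal.toReal_le_toReal (by simp) (ENNReal.inv_ne_top.2 hp0)).2 h1
    have h3 : ((6 : ℝ≥0∞)⁻¹).toReal = 1 / 6 := by
      rw [ENNReal.toReal_inv]
      norm_num
    rw [h3] at h2
    linarith
  obtain ⟨hq1, hq2, hq0⟩ := hrange p₂ hp₂ hp₂'
  obtain ⟨hr1, hr2, hr0⟩ := hrange p₃ hp₃ hp₃'
  have hp10 : p₁ ≠ 0 := (lt_of_le_of_lt (by positivity) hp₁).ne'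
  obtain ⟨φ, hφ⟩ : ∃ φ : ℝ, φ = (1 + th p₁) / 2 := ⟨_, rfl⟩
  have hφ1 : 1 / 2 ≤ φ := by rw [hφ]; linarith
  have hφ2 : φ ≤ 1 := by rw [hφ]; linarith
  obtain ⟨τ, hτ⟩ : ∃ τ : ℝ, τ = (2 * th p₂ - 1) / 3 := ⟨_, rfl⟩
  have hτ0 : 0 ≤ τ := by rw [hτ]; linarith
  have hτ1 : τ < 1 := by rw [hτ]; linarith
  obtain ⟨σ, hσ⟩ : ∃ σ : ℝ, σ = (2 * th p₃ - 1) / 3 := ⟨_, rfl⟩
  have hσ0 : 0 ≤ σ := by rw [hσ]; linarith
  have hσ1 : σ < 1 := by rw [hσ]; linarith
  obtain ⟨C₁, hC₁, H₁⟩ := cross_bd (s₁ := φ - 1 / 2) (s₂ := φ - 1 / 2) (by linarith) (by linarith)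
    (by linarith) (by linarith) (Fin 3 × Fin 3) (Fin 3)
  obtain ⟨C₂, hC₂, H₂⟩ := cross_bd (s₁ := 1 / 2 + τ) (s₂ := (1 / 2 + τ / 2) - 1 / 2) (by linarith)
    (by linarith) (by linarith) (by linarith) (Fin 3) (Fin 3)
  obtain ⟨C₃, hC₃, H₃⟩ := cross_bd (s₁ := 1 / 2 + σ) (s₂ := (1 / 2 + σ / 2) - 1 / 2) (by linarith)
    (by linarith) (by linarith) (by linarith) (Fin 3) (Fin 3 × Fin 3)
  refine ⟨C₁ + C₂ + C₃, by positivity, ?_⟩
  intro v c a b g α β γ κ ν hv hα hβ hγ ma mb mg ha hb hg hle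
  have hX := Real.sqrt_nonneg (XX v)
  have hY := Real.sqrt_nonneg (YY v)
  have cw : Continuous fun x => v x - mean v := (v_cont hv).sub continuous_const
  have co := vort_cont hv
  have cl := LamV_cont zero_le_one hv
  have cl2 := LamV_cont (σ := 3 / 2) (by norm_num) hv
  have sw : ∀ x, ∑ i, |(v x - mean v) i| ≤ ∑ i, |v x i - ∫ y in cube, v y i| := fun x => le_rfl
  have sl : ∀ x, ∑ i, |LamV 1 v x i| ≤ ∑ i, |Lam 1 (fun y => v y i) x| := fun x => le_rfl
  obtain ⟨i1, b1⟩ := H₁ p₁ hp10 (by rw [hφ]; ring) φ φ (√(XX v)) (√(YY v)) α a (vort v) (LamV 1 v)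
    (fun q => pd q.1 fun y => v y q.2) (fun i => Lam 1 fun y => v y i) (by linarith) hφ2
    (by linarith) hφ2 hX hY hα co cl ma ha (fun q => ad_pd hv hφ1 hφ2 q.1 q.2)
    (fun i => ad_Lam hv hφ1 hφ2 i) (sum_vort_le v) sl
  obtain ⟨i2, b2⟩ := H₂ p₂ hq0 (by rw [hτ]; ring) τ (1 / 2 + τ / 2) (√(XX v)) (√(YY v)) β b
    (fun x => v x - mean v) (LamV 1 v) (fun i x => v x i - ∫ y in cube, v y i)
    (fun i => Lam 1 fun y => v y i) hτ0 hτ1.le (by linarith) (by linarith) hX hY hβ cw cl mb hb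
    (fun i => ad_w hv hτ0 hτ1.le i) (fun i => ad_Lam hv (by linarith) (by linarith) i) sw sl
  obtain ⟨i3, b3⟩ := H₃ p₃ hr0 (by rw [hσ]; ring) σ (1 / 2 + σ / 2) (√(XX v)) (√(YY v)) γ g
    (fun x => v x - mean v) (vort v) (fun i x => v x i - ∫ y in cube, v y i)
    (fun q => pd q.1 fun y => v y q.2) hσ0 hσ1.le (by linarith) (by linarith) hX hY hγ cw co mg hg
    (fun i => ad_w hv hσ0 hσ1.le i) (fun q => ad_pd hv (by linarith) (by linarith) q.1 q.2) sw
    (sum_vort_le v)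
  rw [show φ + φ = 1 + th p₁ by rw [hφ]; ring] at b1
  rw [show τ + (1 / 2 + τ / 2) = th p₂ by rw [hτ]; ring] at b2
  rw [show σ + (1 / 2 + σ / 2) = th p₃ by rw [hσ]; ring] at b3
  -- the dissipation
  have e0 : ∀ x, en (LamV (3 / 2) v x) ^ 2 = ∑ i, Lam (3 / 2) (fun y => v y i) x ^ 2 := by
    intro x
    have h0 : 0 ≤ LamV (3 / 2) v x ⬝ᵥ LamV (3 / 2) v x := by
      rw [dot3]
      nlinarith [sq_nonneg (LamV (3 / 2) v x 0), sq_nonneg (LamV (3 / 2) v x 1),
        sq_nonneg (LamV (3 / 2) v x 2)]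
    unfold en
    rw [Real.sq_sqrt h0, dot3, Fin.sum_univ_three]
    unfold LamV
    ring
  have j0 : ∀ i, IntegrableOn (fun x => Lam (3 / 2) (fun y => v y i) x ^ 2) cube := fun i =>
    integrableOn_cube ((Lam_cont (by norm_num) (hv i)).pow 2)
  have e1 : ∫ x in cube, en (LamV (3 / 2) v x) ^ 2 = YY v := by
    simp_rw [e0]
    rw [integral_finsetSum _ fun i _ => j0 i]
    unfold YY
    refine Finset.sum_congr rfl fun i _ => ?_
    rw [int_Lam_sq (by norm_num) (hv i)]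
    congr 1
    norm_num
  have i0 : IntegrableOn (fun x => κ * ν * en (LamV (3 / 2) v x) ^ 2) cube := by
    simp_rw [e0]
    exact (integrable_finsetSum _ fun i _ => j0 i).const_mul _
  have it : IntegrableOn (fun x => triple (v x - c) (vort v x) (LamV 1 v x)) cube := by
    refine integrableOn_cube ?_
    have cc : Continuous fun x => v x - c := (v_cont hv).sub continuous_const
    have c1 : ∀ i, Continuous fun x => (v x - c) i := fun i => (continuous_apply i).comp cc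
    have c2 : ∀ i, Continuous fun x => vort v x i := fun i => (continuous_apply i).comp co
    have c3 : ∀ i, Continuous fun x => LamV 1 v x i := fun i => (continuous_apply i).comp cl
    simp_rw [triple_eq]
    have := c1 0
    have := c1 1
    have := c1 2
    have := c2 0
    have := c2 1
    have := c2 2
    have := c3 0
    have := c3 1
    have := c3 2
    fun_prop
  have i01 : IntegrableOn (fun x => κ * ν * en (LamV (3 / 2) v x) ^ 2
      + a x * en (crossProduct (vort v x) (LamV 1 v x))) cube := i0.add i1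
  have i012 : IntegrableOn (fun x => κ * ν * en (LamV (3 / 2) v x) ^ 2
      + a x * en (crossProduct (vort v x) (LamV 1 v x))
      + b x * en (crossProduct (v x - mean v) (LamV 1 v x))) cube := i01.add i2
  have i0123 : IntegrableOn (fun x => κ * ν * en (LamV (3 / 2) v x) ^ 2
      + a x * en (crossProduct (vort v x) (LamV 1 v x))
      + b x * en (crossProduct (v x - mean v) (LamV 1 v x))
      + g x * en (crossProduct (v x - mean v) (vort v x))) cube := i012.add i3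
  have h := setIntegral_mono_ae_restrict it i0123 hle
  rw [integral_add i012 i3, integral_add i01 i2, integral_add i0 i1, integral_const_mul, e1] at h
  have d1 := (abs_le.1 b1).2
  have d2 := (abs_le.1 b2).2
  have d3 := (abs_le.1 b3).2
  have n1 : 0 ≤ α * (√(XX v) ^ (2 - (1 + th p₁)) * √(YY v) ^ (1 + th p₁)) := by positivity
  have n2 : 0 ≤ β * (√(XX v) ^ (2 - th p₂) * √(YY v) ^ th p₂) := by positivity
  have n3 : 0 ≤ γ * (√(XX v) ^ (2 - th p₃) * √(YY v) ^ th p₃) := by positivity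
  nlinarith [mul_nonneg hC₁ n1, mul_nonneg hC₁ n2, mul_nonneg hC₁ n3, mul_nonneg hC₂ n1,
    mul_nonneg hC₂ n2, mul_nonneg hC₂ n3, mul_nonneg hC₃ n1, mul_nonneg hC₃ n2,
    mul_nonneg hC₃ n3]

/-- Gronwall's inequality. -/
theorem gron {y Z g y' : ℝ → ℝ} {T B c : ℝ} (hyc : ContinuousOn y (Ico 0 T))
    (hZc : ContinuousOn Z (Ico 0 T)) (hy0 : ∀ s ∈ Ico 0 T, 0 ≤ y s)
    (hZ0 : ∀ s ∈ Ico 0 T, 0 ≤ Z s) (hc : 0 < c) (hd : ∀ s ∈ Ioo 0 T, HasDerivAt y (y' s) s)
    (hg0 : ∀ s ∈ Ioo 0 T, 0 ≤ g s) (hgi : ∀ t ∈ Ico 0 T, IntegrableOn g (Icc 0 t))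
    (hgB : ∀ t ∈ Ico 0 T, ∫ s in (0 : ℝ)..t, g s ≤ B)
    (hle : ∀ s ∈ Ioo 0 T, y' s ≤ -(c * Z s) + g s * y s) :
    (∀ t ∈ Ico 0 T, y t ≤ y 0 * Real.exp B) ∧
      ∀ t ∈ Ico 0 T, ∫ s in (0 : ℝ)..t, Z s ≤ (y 0 + y 0 * Real.exp B * B) / c := by
  have hbd : ∀ t ∈ Ico 0 T, y t ≤ y 0 * Real.exp B := by
    intro t ht
    have hsub : Icc 0 t ⊆ Ico 0 T := fun s hs => ⟨hs.1, hs.2.trans_lt ht.2⟩
    have h00 : (0 : ℝ) ∈ Ico 0 T := ⟨le_rfl, ht.1.trans_lt ht.2⟩
    have hlog : ∀ ε : ℝ, 0 < ε → y t + ε ≤ (y 0 + ε) * Real.exp B := by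
      intro ε hε
      have hpos : ∀ s ∈ Icc 0 t, 0 < y s + ε := fun s hs => by linarith [hy0 s (hsub hs)]
      have hcc : ContinuousOn (fun s => Real.log (y s + ε)) (Icc 0 t) :=
        ((hyc.mono hsub).add continuousOn_const).log fun s hs => (hpos s hs).ne'
      have hd' : ∀ s ∈ Ioo 0 t, HasDerivWithinAt (fun s => Real.log (y s + ε))
          (y' s / (y s + ε)) (Ioi s) s := fun s hs =>
        (((hd s ⟨hs.1, hs.2.trans ht.2⟩).add_const ε).log
          (hpos s (Ioo_subset_Icc_self hs)).ne').hasDerivWithinAt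
      have hle' : ∀ s ∈ Ioo 0 t, y' s / (y s + ε) ≤ g s := by
        intro s hs
        have hs' : s ∈ Ioo 0 T := ⟨hs.1, hs.2.trans ht.2⟩
        rw [div_le_iff₀ (hpos s (Ioo_subset_Icc_self hs))]
        have a1 := hle s hs'
        have a2 := mul_nonneg hc.le (hZ0 s ⟨hs'.1.le, hs'.2⟩)
        have a3 := mul_nonneg (hg0 s hs') hε.le
        linarith
      have h1 := intervalIntegral.sub_le_integral_of_hasDeriv_right_of_le ht.1 hcc hd' (hgi t ht)
        hle'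
      have h2 : Real.log (y t + ε) ≤ Real.log (y 0 + ε) + B := by linarith [hgB t ht]
      calc y t + ε = Real.exp (Real.log (y t + ε)) :=
            (Real.exp_log (hpos t ⟨ht.1, le_rfl⟩)).symm
        _ ≤ Real.exp (Real.log (y 0 + ε) + B) := Real.exp_le_exp.2 h2
        _ = (y 0 + ε) * Real.exp B := by
            rw [Real.exp_add, Real.exp_log (hpos 0 ⟨le_rfl, ht.1⟩)]
    have hlim1 : Tendsto (fun ε : ℝ => y t + ε) (𝓝[>] 0) (𝓝 (y t + 0)) :=
      (tendsto_const_nhds.add tendsto_id).mono_left nhdsWithin_le_nhds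
    have hlim2 : Tendsto (fun ε : ℝ => (y 0 + ε) * Real.exp B) (𝓝[>] 0)
        (𝓝 ((y 0 + 0) * Real.exp B)) :=
      ((tendsto_const_nhds.add tendsto_id).mul_const _).mono_left nhdsWithin_le_nhds
    have := le_of_tendsto_of_tendsto hlim1 hlim2 (by
      filter_upwards [self_mem_nhdsWithin] with ε hε
      exact hlog ε hε)
    simpa using this
  refine ⟨hbd, fun t ht => ?_⟩
  have hsub : Icc 0 t ⊆ Ico 0 T := fun s hs => ⟨hs.1, hs.2.trans_lt ht.2⟩
  have h00 : (0 : ℝ) ∈ Ico 0 T := ⟨le_rfl, ht.1.trans_lt ht.2⟩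
  obtain ⟨Y, hY⟩ : ∃ Y : ℝ, Y = y 0 * Real.exp B := ⟨_, rfl⟩
  have hY0 : 0 ≤ Y := by
    rw [hY]
    exact mul_nonneg (hy0 0 h00) (Real.exp_pos _).le
  have hZ1 : IntegrableOn Z (Icc 0 t) := (hZc.mono hsub).integrableOn_Icc
  have i2 : IntervalIntegrable Z volume 0 t :=
    (intervalIntegrable_iff_integrableOn_Icc_of_le ht.1).2 hZ1
  have i1 : IntervalIntegrable g volume 0 t :=
    (intervalIntegrable_iff_integrableOn_Icc_of_le ht.1).2 (hgi t ht)
  have hg1 : IntegrableOn (fun s => -(c * Z s) + Y * g s) (Icc 0 t) :=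
    ((hZ1.const_mul c).neg).add ((hgi t ht).const_mul _)
  have h1 := intervalIntegral.sub_le_integral_of_hasDeriv_right_of_le ht.1 (hyc.mono hsub)
    (fun s hs => (hd s ⟨hs.1, hs.2.trans ht.2⟩).hasDerivWithinAt) hg1
    (fun s hs => by
      have hs' : s ∈ Ioo 0 T := ⟨hs.1, hs.2.trans ht.2⟩
      have a1 := hle s hs'
      have a2 : g s * y s ≤ Y * g s := by
        rw [mul_comm, hY]
        exact mul_le_mul_of_nonneg_right (hbd s ⟨hs'.1.le, hs'.2⟩) (hg0 s hs')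
      linarith)
  have j1 : IntervalIntegrable (fun s => -(c * Z s)) volume 0 t := (i2.const_mul c).neg
  have j2 : IntervalIntegrable (fun s => Y * g s) volume 0 t := i1.const_mul _
  rw [intervalIntegral.integral_add j1 j2, intervalIntegral.integral_neg,
    intervalIntegral.integral_const_mul, intervalIntegral.integral_const_mul] at h1
  have a1 := mul_le_mul_of_nonneg_left (hgB t ht) hY0
  have a4 := hy0 t ht
  rw [le_div_iff₀ hc, ← hY]
  linarith

/-- Integrability up to the end. -/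
theorem int_of_bdd {Z : ℝ → ℝ} {T K : ℝ} (hZc : ContinuousOn Z (Ico 0 T))
    (hZ0 : ∀ s ∈ Ico 0 T, 0 ≤ Z s) (h : ∀ t ∈ Ico 0 T, ∫ s in (0 : ℝ)..t, Z s ≤ K) :
    IntegrableOn Z (Ioo 0 T) := by
  rcases le_or_gt T 0 with hT | hT
  · rw [Ioo_eq_empty (by linarith)]
    exact integrableOn_empty
  rw [← integrableOn_Ioc_iff_integrableOn_Ioo]
  obtain ⟨b, hb⟩ : ∃ b : ℕ → ℝ, b = fun n : ℕ => T - T / ((n : ℝ) + 1) := ⟨_, rfl⟩
  have hb0 : ∀ n, b n ∈ Ico 0 T := by
    intro n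
    rw [hb]
    have hn : (0 : ℝ) < n + 1 := by positivity
    constructor
    · show 0 ≤ T - T / (n + 1)
      rw [sub_nonneg]
      exact div_le_self hT.le (by linarith [(Nat.cast_nonneg n : (0 : ℝ) ≤ n)])
    · show T - T / (n + 1) < T
      have : 0 < T / (n + 1) := by positivity
      linarith
  refine integrableOn_Ioc_of_intervalIntegral_norm_bounded_right (l := atTop) (b := b) (I := K)
    (fun n => ?_) ?_ (Eventually.of_forall fun n => ?_)
  · rw [← integrableOn_Icc_iff_integrableOn_Ioc]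
    exact (hZc.mono fun s hs => ⟨hs.1, hs.2.trans_lt (hb0 n).2⟩).integrableOn_Icc
  · rw [hb]
    have h1 : Tendsto (fun n : ℕ => T / ((n : ℝ) + 1)) atTop (𝓝 0) :=
      Tendsto.const_div_atTop (tendsto_natCast_atTop_atTop.atTop_add tendsto_const_nhds) T
    have h2 := h1.const_sub T
    rwa [sub_zero] at h2
  · have h1 := h (b n) (hb0 n)
    rw [intervalIntegral.integral_of_le (hb0 n).1] at h1
    refine le_trans (le_of_eq ?_) h1
    refine setIntegral_congr_fun measurableSet_Ioc fun s hs => ?_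
    rw [Real.norm_eq_abs, abs_of_nonneg (hZ0 s ⟨hs.1.le, hs.2.trans_lt (hb0 n).2⟩)]

end Pool.Agent.Helper21K2
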