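import Pool.Agent.Helper21K2.Prod

/-!
Trilinear estimates (helper21).
-/

set_option autoImplicit false

open MeasureTheory Set Filter Topology
open scoped ContDiff ENNReal NNReal

namespace Pool.Agent.Helper21K2

open H459R3.NS Pool.Agent.W268.NS

/-- Interpolation. -/
theorem interp {a : K3 → ℂ} (ha : Rap a) {θ : ℝ} (h0 : 0 ≤ θ) (h1 : θ ≤ 1) :
    HH (1 / 2 + θ) a ≤ HH (1 / 2) a ^ (1 - θ) * HH (3 / 2) a ^ θ := by
  obtain ⟨P, hP⟩ : ∃ P : K3 → ℝ, P = fun k => (N k : ℝ) ^ (2 * (1 / 2 : ℝ)) * ‖a k‖ ^ 2 := ⟨_, rfl⟩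
  obtain ⟨Q, hQ⟩ : ∃ Q : K3 → ℝ, Q = fun k => (N k : ℝ) ^ (2 * (3 / 2 : ℝ)) * ‖a k‖ ^ 2 := ⟨_, rfl⟩
  have hP0 : ∀ k, 0 ≤ P k := fun k => by rw [hP]; positivity
  have hQ0 : ∀ k, 0 ≤ Q k := fun k => by rw [hQ]; positivity
  have hPs : Summable P := by rw [hP]; exact rap_sq ha (by norm_num)
  have hQs : Summable Q := by rw [hQ]; exact rap_sq ha (by norm_num)
  obtain ⟨s, hs⟩ : ∃ s : ℝ, s = HH (1 / 2) a := ⟨_, rfl⟩
  obtain ⟨t, ht⟩ : ∃ t : ℝ, t = HH (3 / 2) a := ⟨_, rfl⟩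
  have hsP : s = ∑' k, P k := by rw [hs, hP]; rfl
  have htQ : t = ∑' k, Q k := by rw [ht, hQ]; rfl
  have hs0 : 0 ≤ s := by rw [hs]; exact HH_nn _ _
  have ht0 : 0 ≤ t := by rw [ht]; exact HH_nn _ _
  rw [← hs, ← ht]
  have hpos : (0 : ℝ) < 1 / 2 + θ := by linarith
  have key : ∀ k, (N k : ℝ) ^ (2 * (1 / 2 + θ)) * ‖a k‖ ^ 2 = P k ^ (1 - θ) * Q k ^ θ := by
    intro k
    rw [hP, hQ]
    simp only
    rcases Nat.eq_zero_or_pos (N k) with h | h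
    · rw [h, Nat.cast_zero, Real.zero_rpow (by linarith), Real.zero_rpow (by norm_num),
        Real.zero_rpow (by norm_num), zero_mul]
      rcases h0.eq_or_lt with h2 | h2
      · rw [← h2]
        norm_num
      · rw [Real.zero_rpow h2.ne', mul_zero]
    · have h3 : (0 : ℝ) < N k := by exact_mod_cast h
      have h4 : (0 : ℝ) ≤ ‖a k‖ ^ 2 := by positivity
      rw [Real.mul_rpow (by positivity) h4, Real.mul_rpow (by positivity) h4,
        ← Real.rpow_mul h3.le, ← Real.rpow_mul h3.le]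
      have e1 : (‖a k‖ ^ 2) ^ (1 - θ) * (‖a k‖ ^ 2) ^ θ = ‖a k‖ ^ 2 := by
        rw [← Real.rpow_add_of_nonneg h4 (by linarith) h0, sub_add_cancel, Real.rpow_one]
      have e2 : (N k : ℝ) ^ (2 * (1 / 2 : ℝ) * (1 - θ)) * (N k : ℝ) ^ (2 * (3 / 2 : ℝ) * θ)
          = (N k : ℝ) ^ (2 * (1 / 2 + θ)) := by
        rw [← Real.rpow_add h3]
        congr 1
        ring
      calc (N k : ℝ) ^ (2 * (1 / 2 + θ)) * ‖a k‖ ^ 2
          = ((N k : ℝ) ^ (2 * (1 / 2 : ℝ) * (1 - θ)) * (N k : ℝ) ^ (2 * (3 / 2 : ℝ) * θ))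
            * ((‖a k‖ ^ 2) ^ (1 - θ) * (‖a k‖ ^ 2) ^ θ) := by rw [e1, e2]
        _ = _ := by ring
  have hz : ∀ k, (N k = 0 ∨ a k = 0) → (N k : ℝ) ^ (2 * (1 / 2 + θ)) * ‖a k‖ ^ 2 = 0 := by
    intro k hk
    rcases hk with h | h
    · rw [h, Nat.cast_zero, Real.zero_rpow (by linarith), zero_mul]
    · rw [h, norm_zero, zero_pow two_ne_zero, mul_zero]
  have hzz : ∀ (σ : ℝ), ∑' k, (N k : ℝ) ^ σ * ‖a k‖ ^ 2 = 0 → (Summable fun k =>
      (N k : ℝ) ^ σ * ‖a k‖ ^ 2) → ∀ k, N k = 0 ∨ a k = 0 := by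
    intro σ h hsum k
    by_contra hc
    push Not at hc
    have h2 : (N k : ℝ) ^ σ * ‖a k‖ ^ 2 ≤ ∑' k, (N k : ℝ) ^ σ * ‖a k‖ ^ 2 :=
      hsum.le_tsum k fun _ _ => by positivity
    rw [h] at h2
    have h3 : (0 : ℝ) < N k := by exact_mod_cast Nat.pos_of_ne_zero hc.1
    have h4 : 0 < (N k : ℝ) ^ σ := Real.rpow_pos_of_pos h3 _
    have h5 : 0 < ‖a k‖ ^ 2 := by
      have := norm_pos_iff.2 hc.2
      positivity
    nlinarith [mul_pos h4 h5]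
  rcases hs0.eq_or_lt with h | hsp
  · have h2 := hzz (2 * (1 / 2)) (by rw [h, hs]; rfl) (rap_sq ha (by norm_num))
    have : HH (1 / 2 + θ) a = 0 := by
      unfold HH
      rw [tsum_congr fun k => hz k (h2 k), tsum_zero]
    rw [this]
    positivity
  rcases ht0.eq_or_lt with h | htp
  · have h2 := hzz (2 * (3 / 2)) (by rw [h, ht]; rfl) (rap_sq ha (by norm_num))
    have : HH (1 / 2 + θ) a = 0 := by
      unfold HH
      rw [tsum_congr fun k => hz k (h2 k), tsum_zero]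
    rw [this]
    positivity
  have hle : ∀ k, (N k : ℝ) ^ (2 * (1 / 2 + θ)) * ‖a k‖ ^ 2
      ≤ (s ^ (1 - θ) * t ^ θ) * ((1 - θ) * (P k / s) + θ * (Q k / t)) := by
    intro k
    rw [key k]
    have h2 := Real.geom_mean_le_arith_mean2_weighted (w₁ := 1 - θ) (w₂ := θ) (p₁ := P k / s)
      (p₂ := Q k / t) (by linarith) h0 (div_nonneg (hP0 k) hs0) (div_nonneg (hQ0 k) ht0)
      (by ring)
    rw [Real.div_rpow (hP0 k) hs0, Real.div_rpow (hQ0 k) ht0] at h2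
    have hs1 : 0 < s ^ (1 - θ) := Real.rpow_pos_of_pos hsp _
    have ht1 : 0 < t ^ θ := Real.rpow_pos_of_pos htp _
    calc P k ^ (1 - θ) * Q k ^ θ = (s ^ (1 - θ) * t ^ θ) *
          (P k ^ (1 - θ) / s ^ (1 - θ) * (Q k ^ θ / t ^ θ)) := by
          field_simp
      _ ≤ _ := mul_le_mul_of_nonneg_left h2 (by positivity)
  have hsum2 : Summable fun k => (s ^ (1 - θ) * t ^ θ) *
      ((1 - θ) * (P k / s) + θ * (Q k / t)) :=
    (((hPs.div_const s).mul_left _).add ((hQs.div_const t).mul_left _)).mul_left _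
  have h3 : HH (1 / 2 + θ) a ≤ ∑' k, (s ^ (1 - θ) * t ^ θ) *
      ((1 - θ) * (P k / s) + θ * (Q k / t)) :=
    Summable.tsum_le_tsum hle (rap_sq ha (by positivity)) hsum2
  refine h3.trans (le_of_eq ?_)
  rw [tsum_mul_left, ((hPs.div_const s).mul_left (1 - θ)).tsum_add ((hQs.div_const t).mul_left θ),
    tsum_mul_left, tsum_mul_left, tsum_div_const, tsum_div_const, ← hsP, ← htQ,
    div_self hsp.ne', div_self htp.ne']
  ring

/-- The exponent of the Sobolev inequality. -/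
noncomputable def ex (s : ℝ) : ℝ≥0∞ := (ENNReal.ofReal (1 / 2 - s / 3))⁻¹

/-- The Sobolev inequality, in terms of `eLpNorm`. -/
theorem sob_eL {s : ℝ} (h0 : 0 ≤ s) (h1 : s < 3 / 2) : ∃ C : ℝ, 0 < C ∧ ∀ a : K3 → ℂ, Rap a →
    a 0 = 0 → eLpNorm (S a) (ex s) (volume.restrict cube) ≤ ENNReal.ofReal (C * √(HH s a)) := by
  obtain ⟨r, hr⟩ : ∃ r : ℝ, r = 3 / (3 / 2 - s) := ⟨_, rfl⟩
  have h32 : 0 < 3 / 2 - s := by linarith
  have hr0 : 0 < r := by rw [hr]; positivity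
  have hex : ex s = ENNReal.ofReal r := by
    unfold ex
    rw [← ENNReal.ofReal_inv_of_pos (by linarith), hr]
    congr 1
    rw [show (1 / 2 - s / 3 : ℝ) = (3 / 2 - s) / 3 by ring, inv_div]
  have key : ∃ C : ℝ, 0 < C ∧ ∀ a : K3 → ℂ, Rap a → a 0 = 0 →
      ∫⁻ x in cube, ENNReal.ofReal (‖S a x‖ ^ r) ≤ ENNReal.ofReal (C * √(HH s a) ^ r) := by
    rcases h0.eq_or_lt with h | h
    · refine ⟨1, one_pos, fun a ha _ => ?_⟩
      have hr2 : r = 2 := by rw [hr, ← h]; norm_num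
      rw [hr2]
      have e1 : ∀ x, ‖S a x‖ ^ (2 : ℝ) = ‖S a x‖ ^ 2 := fun x => by
        rw [← Real.rpow_natCast]; norm_num
      simp_rw [e1]
      rw [← ofReal_integral_eq_lintegral_ofReal (f := fun x => ‖S a x‖ ^ 2)
        (integrableOn_cube ((S_continuous ha.summable).norm.pow 2))
        (Eventually.of_forall fun x => sq_nonneg _), integral_norm_sq ha.summable, n2_sq]
      refine ENNReal.ofReal_le_ofReal (le_of_eq ?_)
      rw [one_mul]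
      have e2 : √(HH s a) ^ (2 : ℝ) = HH s a := by
        have : (2 : ℝ) = ((2 : ℕ) : ℝ) := by norm_num
        rw [this, Real.rpow_natCast, Real.sq_sqrt (HH_nn _ _)]
      rw [e2, ← h]
      unfold HH
      refine tsum_congr fun k => ?_
      rw [mul_zero, Real.rpow_zero, one_mul]
    · obtain ⟨C, hC, hb⟩ := sob_lint h h1
      rw [← hr] at hb
      exact ⟨C, hC, hb⟩
  obtain ⟨C, hC, hb⟩ := key
  refine ⟨C ^ (1 / r), by positivity, fun a ha h00 => ?_⟩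
  rw [hex, eLpNorm_eq_lintegral_rpow_enorm_toReal (by
    rw [Ne, ENNReal.ofReal_eq_zero, not_le]; exact hr0) ENNReal.ofReal_ne_top,
    ENNReal.toReal_ofReal hr0.le]
  have e1 : ∀ x, ‖S a x‖ₑ ^ r = ENNReal.ofReal (‖S a x‖ ^ r) := by
    intro x
    rw [← ofReal_norm, ENNReal.ofReal_rpow_of_nonneg (norm_nonneg _) hr0.le]
  simp_rw [e1]
  have hA := Real.sqrt_nonneg (HH s a)
  calc (∫⁻ x in cube, ENNReal.ofReal (‖S a x‖ ^ r)) ^ (1 / r)
      ≤ (ENNReal.ofReal (C * √(HH s a) ^ r)) ^ (1 / r) :=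
        ENNReal.rpow_le_rpow (hb a ha h00) (by positivity)
    _ = ENNReal.ofReal (C ^ (1 / r) * √(HH s a)) := by
        rw [ENNReal.ofReal_rpow_of_nonneg (by positivity) (by positivity),
          Real.mul_rpow hC.le (by positivity), ← Real.rpow_mul hA]
        have : r * (1 / r) = 1 := by field_simp
        rw [this, Real.rpow_one]

/-- Hölder's inequality for three functions. -/
theorem holder3 {p q r : ℝ≥0∞} (h : p⁻¹ + (q⁻¹ + r⁻¹) = 1) {f g k : V → ℝ}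
    (hf : AEStronglyMeasurable f (volume.restrict cube)) (hg : Continuous g)
    (hk : Continuous k) :
    ∫⁻ x in cube, ‖f x‖ₑ * (‖g x‖ₑ * ‖k x‖ₑ) ≤ eLpNorm f p (volume.restrict cube)
      * (eLpNorm g q (volume.restrict cube) * eLpNorm k r (volume.restrict cube)) := by
  obtain ⟨m, hm⟩ : ∃ m : ℝ≥0∞, m = (q⁻¹ + r⁻¹)⁻¹ := ⟨_, rfl⟩
  have i1 : ENNReal.HolderTriple q r m := by rw [hm]; exact ENNReal.HolderTriple.of q r
  have i2 : ENNReal.HolderTriple p m 1 := ⟨by rw [hm, inv_inv, h, inv_one]⟩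
  have h1 := eLpNorm_smul_le_mul_eLpNorm (p := q) (q := r) (r := m) (μ := volume.restrict cube)
    hk.aestronglyMeasurable hg.aestronglyMeasurable
  have h2 := eLpNorm_smul_le_mul_eLpNorm (p := p) (q := m) (r := 1) (μ := volume.restrict cube)
    (f := g • k) (φ := f) (hg.mul hk).aestronglyMeasurable hf
  rw [eLpNorm_one_eq_lintegral_enorm] at h2
  refine le_trans (le_of_eq ?_) (h2.trans (mul_le_mul_right h1 _))
  refine lintegral_congr fun x => ?_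
  have e : (f • g • k) x = f x * (g x * k x) := rfl
  rw [e, enorm_mul, enorm_mul]

/-- Functions in the scale of spaces between order one half and three halves. -/
def Ad (s θ K X Y : ℝ) (F : V → ℝ) : Prop := Continuous F ∧ ∃ a : K3 → ℂ, Rap a ∧ a 0 = 0 ∧
  (∀ x, ‖S a x‖ = |F x|) ∧ √(HH s a) ≤ K * (X ^ (1 - θ) * Y ^ θ)

theorem Ad.eL {s θ K X Y : ℝ} {F : V → ℝ} (h : Ad s θ K X Y F) {C : ℝ} (hC : 0 ≤ C)
    (hS : ∀ a : K3 → ℂ, Rap a → a 0 = 0 →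
      eLpNorm (S a) (ex s) (volume.restrict cube) ≤ ENNReal.ofReal (C * √(HH s a))) :
    eLpNorm F (ex s) (volume.restrict cube)
      ≤ ENNReal.ofReal (C * (K * (X ^ (1 - θ) * Y ^ θ))) := by
  obtain ⟨-, a, ha, h00, hF, hb⟩ := h
  have e : eLpNorm F (ex s) (volume.restrict cube) = eLpNorm (S a) (ex s) (volume.restrict cube) :=
    eLpNorm_congr_norm_ae (Eventually.of_forall fun x => by rw [hF x, Real.norm_eq_abs])
  rw [e]
  exact (hS a ha h00).trans (ENNReal.ofReal_le_ofReal (mul_le_mul_of_nonneg_left hb hC))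

/-- The trilinear estimate. -/
theorem tril {s₁ s₂ : ℝ} (h1 : 0 ≤ s₁) (h1' : s₁ < 3 / 2) (h2 : 0 ≤ s₂) (h2' : s₂ < 3 / 2) :
    ∃ C : ℝ, 0 < C ∧ ∀ (p : ℝ≥0∞), p ≠ 0 → th p = s₁ + s₂ → ∀ (θ₁ θ₂ K X Y β : ℝ)
      (h F G : V → ℝ), 0 ≤ θ₁ → θ₁ ≤ 1 → 0 ≤ θ₂ → θ₂ ≤ 1 → 0 ≤ K → 0 ≤ X → 0 ≤ Y → 0 ≤ β →
      AEStronglyMeasurable h (volume.restrict cube) →
      eLpNorm h p (volume.restrict cube) ≤ ENNReal.ofReal β →
      Ad s₁ θ₁ K X Y F → Ad s₂ θ₂ K X Y G →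
      ∫⁻ x in cube, ‖h x‖ₑ * (‖F x‖ₑ * ‖G x‖ₑ) ≤
        ENNReal.ofReal (C * K ^ 2 * (β * (X ^ (2 - (θ₁ + θ₂)) * Y ^ (θ₁ + θ₂)))) := by
  obtain ⟨C₁, hC₁, hS₁⟩ := sob_eL h1 h1'
  obtain ⟨C₂, hC₂, hS₂⟩ := sob_eL h2 h2'
  refine ⟨C₁ * C₂, by positivity, ?_⟩
  intro p hp0 hp θ₁ θ₂ K X Y β h F G hθ1 hθ1' hθ2 hθ2' hK hX hY hβ hm hb hF hG
  have hpi : p⁻¹ = ENNReal.ofReal ((s₁ + s₂) / 3) := by
    have h3 : (p⁻¹).toReal = (s₁ + s₂) / 3 := by
      unfold th at hp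
      linarith
    rw [← h3, ENNReal.ofReal_toReal (ENNReal.inv_ne_top.2 hp0)]
  have hexp : p⁻¹ + ((ex s₁)⁻¹ + (ex s₂)⁻¹) = 1 := by
    unfold ex
    rw [inv_inv, inv_inv, hpi, ← ENNReal.ofReal_add (by linarith) (by linarith),
      ← ENNReal.ofReal_add (by positivity) (by linarith), ← ENNReal.ofReal_one]
    congr 1
    ring
  have hF' := hF.eL hC₁.le hS₁
  have hG' := hG.eL hC₂.le hS₂
  have hA : 0 ≤ X ^ (1 - θ₁) * Y ^ θ₁ := by positivity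
  have hB : 0 ≤ X ^ (1 - θ₂) * Y ^ θ₂ := by positivity
  calc ∫⁻ x in cube, ‖h x‖ₑ * (‖F x‖ₑ * ‖G x‖ₑ)
      ≤ eLpNorm h p (volume.restrict cube) * (eLpNorm F (ex s₁) (volume.restrict cube)
        * eLpNorm G (ex s₂) (volume.restrict cube)) := holder3 hexp hm hF.1 hG.1
    _ ≤ ENNReal.ofReal β * (ENNReal.ofReal (C₁ * (K * (X ^ (1 - θ₁) * Y ^ θ₁))) *
        ENNReal.ofReal (C₂ * (K * (X ^ (1 - θ₂) * Y ^ θ₂)))) := by gcongr
    _ = _ := by
        rw [← ENNReal.ofReal_mul (by positivity), ← ENNReal.ofReal_mul hβ]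
        congr 1
        have e1 : X ^ (2 - (θ₁ + θ₂)) = X ^ (1 - θ₁) * X ^ (1 - θ₂) := by
          rw [← Real.rpow_add_of_nonneg hX (by linarith) (by linarith)]
          congr 1
          ring
        have e2 : Y ^ (θ₁ + θ₂) = Y ^ θ₁ * Y ^ θ₂ := Real.rpow_add_of_nonneg hY hθ1 hθ2
        rw [e1, e2]
        ring

end Pool.Agent.Helper21K2
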