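import Pool.Agent.Helper21K2.Lam

/-!
Time derivative of the norm of order one half (helper21).
-/

set_option autoImplicit false

open MeasureTheory Set Filter Topology
open scoped ContDiff ENNReal NNReal

namespace Pool.Agent.Helper21K2

open H459R3.NS

theorem unif {F : ℝ → V → ℝ} {a b : ℝ}
    (hF : ContinuousOn (fun z : ℝ × V => F z.1 z.2) (Icc a b ×ˢ cube)) {ε : ℝ} (hε : 0 < ε) :
    ∃ δ : ℝ, 0 < δ ∧ ∀ s ∈ Icc a b, ∀ t ∈ Icc a b, |s - t| < δ → ∀ x ∈ cube,
      |F s x - F t x| ≤ ε := by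
  have hK : IsCompact (Icc a b ×ˢ cube) := isCompact_Icc.prod isCompact_Icc
  have hu := hK.uniformContinuousOn_of_continuous hF
  rw [Metric.uniformContinuousOn_iff] at hu
  obtain ⟨δ, hδ, h⟩ := hu ε hε
  refine ⟨δ, hδ, fun s hs t ht hst x hx => ?_⟩
  have h1 := h (s, x) ⟨hs, hx⟩ (t, x) ⟨ht, hx⟩ (by
    rw [Prod.dist_eq, dist_self, max_lt_iff]
    exact ⟨by rwa [Real.dist_eq], hδ⟩)
  rw [Real.dist_eq] at h1
  exact h1.le

theorem nrm_le_of {h : V → ℝ} (hh : Continuous h) {c : ℝ} (hc : 0 ≤ c)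
    (hb : ∀ x ∈ cube, |h x| ≤ c) : nrm h ≤ c := by
  unfold nrm
  rw [← Real.sqrt_sq hc]
  refine Real.sqrt_le_sqrt ?_
  have h1 : ∫ x in cube, h x ^ 2 ≤ ∫ _x in cube, c ^ 2 := by
    refine setIntegral_mono_on (integrableOn_cube (hh.pow 2)) (integrableOn_cube continuous_const)
      measurableSet_Icc fun x hx => ?_
    rw [← sq_abs (h x)]
    exact pow_le_pow_left₀ (abs_nonneg _) (hb x hx) 2
  refine h1.trans (le_of_eq ?_)
  rw [setIntegral_const, Measure.real, volume_cube]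
  simp

theorem pd_sub {f g : V → ℝ} (hf : SP f) (hg : SP g) (j : Fin 3) (x : V) :
    pd j (fun y => f y - g y) x = pd j f x - pd j g x := by
  unfold pd
  have h : HasFDerivAt (fun y => f y - g y) _ x :=
    (hf.diff x).hasFDerivAt.sub (hg.diff x).hasFDerivAt
  rw [h.fderiv]
  rfl

theorem grd_le_of {f g : V → ℝ} (hf : SP f) (hg : SP g) {c : ℝ} (hc : 0 ≤ c)
    (hb : ∀ j, ∀ x ∈ cube, |pd j f x - pd j g x| ≤ c) : grd (fun x => f x - g x) ≤ 2 * c := by
  have h1 : grd (fun x => f x - g x) ^ 2 ≤ (2 * c) ^ 2 := by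
    rw [grd_sq]
    have h2 : ∀ j, ∫ x in cube, pd j (fun x => f x - g x) x ^ 2 ≤ c ^ 2 := by
      intro j
      rw [← nrm_sq]
      refine pow_le_pow_left₀ (nrm_nonneg _) (nrm_le_of ((hf.sub hg).pd j).cont hc fun x hx => ?_) 2
      rw [pd_sub hf hg]
      exact hb j x hx
    calc ∑ j, ∫ x in cube, pd j (fun x => f x - g x) x ^ 2 ≤ ∑ _j : Fin 3, c ^ 2 :=
          Finset.sum_le_sum fun j _ => h2 j
      _ ≤ (2 * c) ^ 2 := by
          rw [Finset.sum_const, Finset.card_univ, Fintype.card_fin, nsmul_eq_mul]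
          push_cast
          nlinarith [sq_nonneg c]
  exact (pow_le_pow_iff_left₀ (grd_nonneg _) (by positivity) (by norm_num)).1 h1

section

variable {T : ℝ} {f g : ℝ → V → ℝ}

theorem icc_sub {a b : ℝ} (ha : 0 ≤ a) (hb : b < T) :
    Icc a b ×ˢ cube ⊆ Ico 0 T ×ˢ (univ : Set V) :=
  prod_mono (fun _ hs => ⟨ha.trans hs.1, hs.2.trans_lt hb⟩) (subset_univ _)

/-- The difference quotient. -/
theorem dq (hf : ContDiffOn ℝ ∞ (fun z : ℝ × V => f z.1 z.2) (Ico 0 T ×ˢ univ)) {t : ℝ}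
    (ht : t ∈ Ioo 0 T) {ε : ℝ} (hε : 0 < ε) : ∃ δ : ℝ, 0 < δ ∧ ∀ s, |s - t| < δ →
      s ∈ Ioo 0 T ∧ ∀ x ∈ cube, |f s x - f t x - (s - t) * dt f t x| ≤ ε * |s - t| := by
  obtain ⟨a, ha1, ha2⟩ := exists_between ht.1
  obtain ⟨b, hb1, hb2⟩ := exists_between ht.2
  have hO : IsOpen (Ioo 0 T ×ˢ (univ : Set V)) := isOpen_Ioo.prod isOpen_univ
  have hd : ContinuousOn (fun z : ℝ × V => dt f z.1 z.2) (Ioo 0 T ×ˢ univ) := by
    have h1 : ContinuousOn (fun z : ℝ × V =>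
        fderiv ℝ (fun z : ℝ × V => f z.1 z.2) z (1, 0)) (Ioo 0 T ×ˢ univ) :=
      ((mono_Ioo (n := 1) hf (by norm_cast)).continuousOn_fderiv_of_isOpen hO le_rfl).clm_apply
        continuousOn_const
    exact h1.congr fun z hz => dt_eq hf hz.1 z.2
  have hab : Icc a b ×ˢ cube ⊆ Ioo 0 T ×ˢ (univ : Set V) :=
    prod_mono (fun s hs => ⟨ha1.trans_le hs.1, hs.2.trans_lt hb2⟩) (subset_univ _)
  obtain ⟨δ, hδ, hu⟩ := unif (F := dt f) (hd.mono hab) hε
  refine ⟨min δ (min (t - a) (b - t)), by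
    have := sub_pos.2 ha2
    have := sub_pos.2 hb1
    positivity, fun s hs => ?_⟩
  have hsδ : |s - t| < δ := hs.trans_le (min_le_left _ _)
  have hsa : |s - t| < t - a := hs.trans_le ((min_le_right _ _).trans (min_le_left _ _))
  have hsb : |s - t| < b - t := hs.trans_le ((min_le_right _ _).trans (min_le_right _ _))
  rw [abs_lt] at hsa hsb
  have hsI : s ∈ Icc a b := ⟨by linarith [hsa.1], by linarith [hsb.2]⟩
  have htI : t ∈ Icc a b := ⟨ha2.le, hb1.le⟩
  refine ⟨⟨ha1.trans_le hsI.1, hsI.2.trans_lt hb2⟩, fun x hx => ?_⟩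
  -- mean value inequality on the segment
  have hseg : ∀ τ ∈ uIcc t s, τ ∈ Icc a b ∧ |τ - t| < δ := by
    intro τ hτ
    have h1 : τ ∈ Icc a b := (ordConnected_Icc.uIcc_subset htI hsI) hτ
    refine ⟨h1, lt_of_le_of_lt ?_ hsδ⟩
    exact abs_sub_left_of_mem_uIcc hτ
  have hder : ∀ τ ∈ uIcc t s, HasDerivWithinAt (fun τ => f τ x - τ * dt f t x)
      (dt f τ x - dt f t x) (uIcc t s) τ := by
    intro τ hτ
    have h1 := (hseg τ hτ).1
    have h2 : τ ∈ Ioo 0 T := ⟨ha1.trans_le h1.1, h1.2.trans_lt hb2⟩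
    have h3 := hasDerivAt_slice (F := f) (mono_Ioo (n := 1) hf (by norm_cast)) h2 x
    rw [← dt_eq hf h2 x] at h3
    have h4 : HasDerivAt (fun τ => τ * dt f t x) (1 * dt f t x) τ :=
      (hasDerivAt_id τ).mul_const _
    rw [one_mul] at h4
    exact (h3.sub h4).hasDerivWithinAt
  have h5 := Convex.norm_image_sub_le_of_norm_hasDerivWithin_le (s := uIcc t s) (C := ε) hder
    (fun τ hτ => by
      rw [Real.norm_eq_abs]
      exact hu τ (hseg τ hτ).1 t htI (hseg τ hτ).2 x hx)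
    (convex_uIcc t s) left_mem_uIcc right_mem_uIcc
  rw [Real.norm_eq_abs, Real.norm_eq_abs] at h5
  refine le_trans (le_of_eq ?_) h5
  congr 1
  ring

/-- The time derivative of `∫ f (-Δ)^(1/2) f`. -/
theorem hasDerivAt_BB (hf : ContDiffOn ℝ ∞ (fun z : ℝ × V => f z.1 z.2) (Ico 0 T ×ˢ univ))
    (hp : ∀ t ∈ Ico 0 T, Per (f t)) {t : ℝ} (ht : t ∈ Ioo 0 T) (hdt : SP (dt f t)) :
    HasDerivAt (fun s => BB 1 (f s) (f s)) (2 * BB 1 (f t) (dt f t)) t := by
  have hsp : ∀ s ∈ Ioo 0 T, SP (f s) := fun s hs =>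
    ⟨contDiff_slice hf ⟨hs.1.le, hs.2⟩, hp s ⟨hs.1.le, hs.2⟩⟩
  have hft := hsp t ht
  obtain ⟨a, ha1, ha2⟩ := exists_between ht.1
  obtain ⟨b, hb1, hb2⟩ := exists_between ht.2
  rw [hasDerivAt_iff_isLittleO, Asymptotics.isLittleO_iff]
  intro c hc
  obtain ⟨M, hM⟩ := isCompact_Icc.exists_bound_of_continuousOn (s := cube) hdt.cont.continuousOn
  have hM0 : 0 ≤ M := (norm_nonneg _).trans (hM 0 ⟨le_rfl, fun i => by simp⟩)
  have hg0 := grd_nonneg (f t)
  obtain ⟨ε, hε⟩ : ∃ ε : ℝ, ε = min 1 (c / (2 * (2 * (grd (f t) + 1)))) := ⟨_, rfl⟩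
  have hε0 : 0 < ε := by rw [hε]; positivity
  have hε1 : ε ≤ 1 := by rw [hε]; exact min_le_left _ _
  have hε2 : 2 * (ε * grd (f t)) ≤ c / 2 := by
    have h1 : ε ≤ c / (2 * (2 * (grd (f t) + 1))) := by rw [hε]; exact min_le_right _ _
    calc 2 * (ε * grd (f t)) ≤ 2 * (c / (2 * (2 * (grd (f t) + 1))) * (grd (f t) + 1)) := by
          gcongr
          linarith
      _ = c / 2 := by field_simp
  obtain ⟨η, hη⟩ : ∃ η : ℝ, η = c / (4 * (1 + M)) := ⟨_, rfl⟩
  have hη0 : 0 < η := by rw [hη]; positivity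
  obtain ⟨δ₁, hδ₁, h1⟩ := dq hf ht hε0
  have hpd : ∀ j, ∃ δ : ℝ, 0 < δ ∧ ∀ s ∈ Icc a b, ∀ t ∈ Icc a b, |s - t| < δ → ∀ x ∈ cube,
      |pd j (f s) x - pd j (f t) x| ≤ η := fun j =>
    unif (F := fun s x => pd j (f s) x) ((contDiffOn_pd hf j).continuousOn.mono
      (icc_sub ha1.le hb2)) hη0
  choose δ₂ hδ₂ h2 using hpd
  have htI : t ∈ Icc a b := ⟨ha2.le, hb1.le⟩
  have ev1 : ∀ᶠ s in 𝓝 t, |s - t| < δ₁ := by
    have := Metric.ball_mem_nhds t hδ₁
    filter_upwards [this] with s hs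
    rwa [Metric.mem_ball, Real.dist_eq] at hs
  have ev2 : ∀ᶠ s in 𝓝 t, ∀ j, |s - t| < δ₂ j := by
    rw [eventually_all]
    intro j
    filter_upwards [Metric.ball_mem_nhds t (hδ₂ j)] with s hs
    rwa [Metric.mem_ball, Real.dist_eq] at hs
  have ev3 : ∀ᶠ s in 𝓝 t, s ∈ Icc a b := Icc_mem_nhds ha2 hb1
  filter_upwards [ev1, ev2, ev3] with s hs1 hs2 hs3
  obtain ⟨hsT, h1s⟩ := h1 s hs1
  have hfs := hsp s hsT
  -- the difference
  have hδsp : SP (fun x => f s x - f t x) := hfs.sub hft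
  have hcdt : SP (fun x => (s - t) * dt f t x) :=
    ⟨contDiff_const.mul hdt.smooth, fun i x => by simp only [hdt.per i x]⟩
  have hρsp : SP (fun x => f s x - f t x - (s - t) * dt f t x) := hδsp.sub hcdt
  have e1 : BB 1 (fun x => f s x - f t x) (fun x => f s x - f t x)
      = BB 1 (f s) (f s) - 2 * BB 1 (f t) (f s) + BB 1 (f t) (f t) := by
    rw [BB_sub_left zero_le_one hfs hft hδsp.cont, BB_sub_right zero_le_one hfs hft hfs.cont,
      BB_sub_right zero_le_one hfs hft hft.cont, BB_symm 1 (f s) (f t)]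
    ring
  have e2 : BB 1 (f t) (fun x => f s x - f t x - (s - t) * dt f t x)
      = BB 1 (f t) (f s) - BB 1 (f t) (f t) - (s - t) * BB 1 (f t) (dt f t) := by
    rw [BB_sub_right zero_le_one hδsp hcdt hft.cont, BB_sub_right zero_le_one hfs hft hft.cont,
      BB_smul_right]
  have e3 : BB 1 (f s) (f s) - BB 1 (f t) (f t) - (s - t) • (2 * BB 1 (f t) (dt f t))
      = BB 1 (fun x => f s x - f t x) (fun x => f s x - f t x)
        + 2 * BB 1 (f t) (fun x => f s x - f t x - (s - t) * dt f t x) := by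
    rw [e1, e2, smul_eq_mul]
    ring
  rw [e3, Real.norm_eq_abs, Real.norm_eq_abs]
  have n1 : nrm (fun x => f s x - f t x - (s - t) * dt f t x) ≤ ε * |s - t| :=
    nrm_le_of hρsp.cont (by positivity) h1s
  have n2 : nrm (fun x => f s x - f t x) ≤ (1 + M) * |s - t| := by
    refine nrm_le_of hδsp.cont (by positivity) fun x hx => ?_
    have a1 := h1s x hx
    have a2 := hM x hx
    rw [Real.norm_eq_abs] at a2
    have a3 : |(s - t) * dt f t x| ≤ M * |s - t| := by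
      rw [abs_mul, mul_comm]
      gcongr
    calc |f s x - f t x| = |(f s x - f t x - (s - t) * dt f t x) + (s - t) * dt f t x| := by
          congr 1; ring
      _ ≤ |f s x - f t x - (s - t) * dt f t x| + |(s - t) * dt f t x| := abs_add_le _ _
      _ ≤ 1 * |s - t| + M * |s - t| := by
          refine add_le_add (a1.trans ?_) a3
          gcongr
      _ = _ := by ring
  have n3 : grd (fun x => f s x - f t x) ≤ 2 * η :=
    grd_le_of hfs hft hη0.le fun j x hx => h2 j s hs3 t htI (hs2 j) x hx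
  have b1 := abs_BB_le hδsp hδsp
  have b2 := abs_BB_le hft hρsp
  have m1 : nrm (fun x => f s x - f t x) * grd (fun x => f s x - f t x)
      ≤ ((1 + M) * |s - t|) * (2 * η) :=
    mul_le_mul n2 n3 (grd_nonneg _) (by positivity)
  have m2 : nrm (fun x => f s x - f t x - (s - t) * dt f t x) * grd (f t)
      ≤ (ε * |s - t|) * grd (f t) := by gcongr
  calc |BB 1 (fun x => f s x - f t x) (fun x => f s x - f t x)
        + 2 * BB 1 (f t) (fun x => f s x - f t x - (s - t) * dt f t x)|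
      ≤ |BB 1 (fun x => f s x - f t x) (fun x => f s x - f t x)|
        + |2 * BB 1 (f t) (fun x => f s x - f t x - (s - t) * dt f t x)| := abs_add_le _ _
    _ ≤ ((1 + M) * |s - t|) * (2 * η) + 2 * ((ε * |s - t|) * grd (f t)) := by
        rw [abs_mul, abs_of_pos (by norm_num : (0 : ℝ) < 2)]
        exact add_le_add (b1.trans m1) (by linarith [b2.trans m2])
    _ = ((1 + M) * (2 * η) + 2 * (ε * grd (f t))) * |s - t| := by ring
    _ ≤ (c / 2 + c / 2) * |s - t| := by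
        gcongr
        rw [hη]
        apply le_of_eq
        field_simp
        norm_num
    _ = c * |s - t| := by ring

/-- Continuity of the form. -/
theorem continuousOn_BB (hf : ContDiffOn ℝ ∞ (fun z : ℝ × V => f z.1 z.2) (Ico 0 T ×ˢ univ))
    (hg : ContDiffOn ℝ ∞ (fun z : ℝ × V => g z.1 z.2) (Ico 0 T ×ˢ univ))
    (hpf : ∀ t ∈ Ico 0 T, Per (f t)) (hpg : ∀ t ∈ Ico 0 T, Per (g t)) :
    ContinuousOn (fun s => BB 1 (f s) (g s)) (Ico 0 T) := by
  have hsf : ∀ s ∈ Ico 0 T, SP (f s) := fun s hs => ⟨contDiff_slice hf hs, hpf s hs⟩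
  have hsg : ∀ s ∈ Ico 0 T, SP (g s) := fun s hs => ⟨contDiff_slice hg hs, hpg s hs⟩
  rw [Metric.continuousOn_iff]
  intro t ht c hc
  obtain ⟨b, hb1, hb2⟩ := exists_between ht.2
  have hft := hsf t ht
  have hgt := hsg t ht
  have hgr : ContinuousOn (fun s => ∑ j, ∫ x in cube, pd j (g s) x ^ 2) (Ico 0 T) := by
    refine continuousOn_finsetSum _ fun j _ => ?_
    exact continuousOn_int (F := fun s x => pd j (g s) x ^ 2)
      ((contDiffOn_pd hg j).continuousOn.pow 2)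
  obtain ⟨M, hM⟩ := isCompact_Icc.exists_bound_of_continuousOn (s := Icc 0 b)
    (hgr.mono fun s hs => ⟨hs.1, hs.2.trans_lt hb2⟩)
  have hM0 : 0 ≤ M := (norm_nonneg _).trans (hM 0 ⟨le_rfl, ht.1.trans hb1.le⟩)
  have hgM : ∀ s ∈ Icc 0 b, grd (g s) ≤ √M := by
    intro s hs
    unfold grd
    refine Real.sqrt_le_sqrt ((le_abs_self _).trans ?_)
    have := hM s hs
    rwa [Real.norm_eq_abs] at this
  have hk0 : 0 < √M + grd (f t) + 1 := by
    have := grd_nonneg (f t)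
    positivity
  obtain ⟨η, hη⟩ : ∃ η : ℝ, η = c / (2 * (√M + grd (f t) + 1)) := ⟨_, rfl⟩
  have hη0 : 0 < η := by rw [hη]; positivity
  obtain ⟨δ₁, hδ₁, h1⟩ := unif (F := f) (hf.continuousOn.mono (icc_sub le_rfl hb2)) hη0
  obtain ⟨δ₂, hδ₂, h2⟩ := unif (F := g) (hg.continuousOn.mono (icc_sub le_rfl hb2)) hη0
  refine ⟨min (min δ₁ δ₂) (b - t), by
    have := sub_pos.2 hb1
    positivity, fun s hs hst => ?_⟩
  rw [Real.dist_eq] at hst
  have hst1 : |s - t| < δ₁ := hst.trans_le ((min_le_left _ _).trans (min_le_left _ _))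
  have hst2 : |s - t| < δ₂ := hst.trans_le ((min_le_left _ _).trans (min_le_right _ _))
  have hst3 : |s - t| < b - t := hst.trans_le (min_le_right _ _)
  have hsb : s ∈ Icc 0 b := ⟨hs.1, by linarith [le_abs_self (s - t)]⟩
  have htb : t ∈ Icc 0 b := ⟨ht.1, hb1.le⟩
  have hfs := hsf s hs
  have hgs := hsg s hs
  have e : BB 1 (f s) (g s) - BB 1 (f t) (g t) = BB 1 (g s) (fun x => f s x - f t x)
      + BB 1 (f t) (fun x => g s x - g t x) := by
    rw [BB_sub_right zero_le_one hfs hft hgs.cont, BB_sub_right zero_le_one hgs hgt hft.cont,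
      BB_symm 1 (g s) (f s), BB_symm 1 (g s) (f t)]
    ring
  have n1 : nrm (fun x => f s x - f t x) ≤ η :=
    nrm_le_of (hfs.sub hft).cont hη0.le fun x hx => h1 s hsb t htb hst1 x hx
  have n2 : nrm (fun x => g s x - g t x) ≤ η :=
    nrm_le_of (hgs.sub hgt).cont hη0.le fun x hx => h2 s hsb t htb hst2 x hx
  have b1 := abs_BB_le hgs (hfs.sub hft)
  have b2 := abs_BB_le hft (hgs.sub hgt)
  have m1 : nrm (fun x => f s x - f t x) * grd (g s) ≤ η * √M :=
    mul_le_mul n1 (hgM s hsb) (grd_nonneg _) hη0.le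
  have m2 : nrm (fun x => g s x - g t x) * grd (f t) ≤ η * grd (f t) := by
    have := grd_nonneg (f t)
    gcongr
  rw [Real.dist_eq, e]
  calc |BB 1 (g s) (fun x => f s x - f t x) + BB 1 (f t) (fun x => g s x - g t x)|
      ≤ η * √M + η * grd (f t) := (abs_add_le _ _).trans (add_le_add (b1.trans m1) (b2.trans m2))
    _ < η * (2 * (√M + grd (f t) + 1)) := by
        have := Real.sqrt_nonneg M
        have := grd_nonneg (f t)
        nlinarith
    _ = c := by
        rw [hη]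
        field_simp

end

end Pool.Agent.Helper21K2
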