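import Pool.Agent.Helper21K2.Crit
import Pool.Agent.W268.NS.Fin

/-!
The criterion at the level of the norm of order one half, end of the proof (helper21).
-/

set_option autoImplicit false

open MeasureTheory Set Filter Topology
open scoped ContDiff ENNReal NNReal

namespace Pool.Agent.Helper21K2

open H459R3.NS Pool.Agent.W268.NS

theorem gradM_le (v : V → V) (x : V) (i j : Fin 3) : |gradM v x i j| ≤ √(gradSq v x) := by
  rw [← Real.sqrt_sq_eq_abs]
  refine Real.sqrt_le_sqrt ?_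
  unfold gradSq
  calc gradM v x i j ^ 2 ≤ ∑ j, gradM v x i j ^ 2 :=
        Finset.single_le_sum (f := fun j => gradM v x i j ^ 2) (fun _ _ => sq_nonneg _)
          (Finset.mem_univ j)
    _ ≤ _ := Finset.single_le_sum (f := fun i => ∑ j, gradM v x i j ^ 2)
          (fun _ _ => Finset.sum_nonneg fun _ _ => sq_nonneg _) (Finset.mem_univ i)

theorem stretchRate_le (v : V → V) (x : V) :
    stretchRate v x ≤ 36 * √(gradSq v x) * gradSq v x := by
  obtain ⟨s, hs⟩ : ∃ s : ℝ, s = √(gradSq v x) := ⟨_, rfl⟩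
  have hs0 : 0 ≤ s := by rw [hs]; exact Real.sqrt_nonneg _
  have hG0 : 0 ≤ gradSq v x :=
    Finset.sum_nonneg fun _ _ => Finset.sum_nonneg fun _ _ => sq_nonneg _
  have hs2 : gradSq v x = s ^ 2 := by rw [hs, Real.sq_sqrt hG0]
  have hA : ∀ i j, |gradM v x i j| ≤ s := fun i j => by rw [hs]; exact gradM_le v x i j
  have hsub : ∀ a b : ℝ, |a| ≤ s → |b| ≤ s → |a - b| ≤ 2 * s := fun a b ha hb => by
    have := abs_add_le a (-b)
    rw [← sub_eq_add_neg, abs_neg] at this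
    linarith
  have hw : ∀ i, |vort v x i| ≤ 2 * s := by
    intro i
    fin_cases i
    · exact hsub _ _ (hA 1 2) (hA 2 1)
    · exact hsub _ _ (hA 2 0) (hA 0 2)
    · exact hsub _ _ (hA 0 1) (hA 1 0)
  have ht : ∀ i j, vort v x i * gradM v x i j * vort v x j ≤ 4 * s ^ 3 := by
    intro i j
    calc vort v x i * gradM v x i j * vort v x j
        ≤ |vort v x i * gradM v x i j * vort v x j| := le_abs_self _
      _ = |vort v x i| * |gradM v x i j| * |vort v x j| := by rw [abs_mul, abs_mul]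
      _ ≤ (2 * s) * s * (2 * s) := by
          have := hw i
          have := hw j
          have := hA i j
          gcongr
      _ = 4 * s ^ 3 := by ring
  unfold stretchRate
  calc ∑ i, ∑ j, vort v x i * gradM v x i j * vort v x j ≤ ∑ _i : Fin 3, ∑ _j : Fin 3, 4 * s ^ 3 :=
        Finset.sum_le_sum fun i _ => Finset.sum_le_sum fun j _ => ht i j
    _ = 36 * s * s ^ 2 := by
        simp only [Finset.sum_const, Finset.card_univ, Fintype.card_fin, nsmul_eq_mul]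
        norm_num
        ring
    _ = 36 * √(gradSq v x) * gradSq v x := by rw [← hs, hs2]

theorem ex_half : ex (1 / 2) = 3 := by
  unfold ex
  have h : (1 / 2 - (1 / 2 : ℝ) / 3) = 3⁻¹ := by norm_num
  rw [h, ENNReal.ofReal_inv_of_pos (by norm_num), inv_inv]
  norm_num

/-- The gradient in `L³`. -/
theorem grad_L3 : ∃ K : ℝ, 0 ≤ K ∧ ∀ v : V → V, (∀ i, SP (fun y => v y i)) →
    AEStronglyMeasurable (fun x => 36 * √(gradSq v x)) (volume.restrict cube) ∧
    eLpNorm (fun x => 36 * √(gradSq v x)) 3 (volume.restrict cube)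
      ≤ ENNReal.ofReal (K * √(YY v)) := by
  obtain ⟨C, hC, hS⟩ := sob_eL (s := 1 / 2) (by norm_num) (by norm_num)
  refine ⟨9 * (36 * (C * 16)), by positivity, fun v hv => ?_⟩
  have hc : ∀ q : Fin 3 × Fin 3, Continuous (pd q.1 fun y => v y q.2) := fun q =>
    ((hv q.2).pd q.1).cont
  have hcg : Continuous fun x => 36 * √(gradSq v x) := by
    have h1 : ∀ i j, Continuous fun x => gradM v x i j := fun i j => hc (i, j)
    unfold gradSq
    fun_prop
  refine ⟨hcg.aestronglyMeasurable, ?_⟩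
  have h1 : ∀ q : Fin 3 × Fin 3, eLpNorm (fun x => 36 * |pd q.1 (fun y => v y q.2) x|) 3
      (volume.restrict cube) ≤ ENNReal.ofReal (36 * (C * 16) * √(YY v)) := by
    intro q
    have h2 := (ad_pd hv (θ := 1) (by norm_num) le_rfl q.1 q.2).eL (C := C) hC.le
      (by
        rw [show (1 : ℝ) - 1 / 2 = 1 / 2 by norm_num]
        exact hS)
    rw [show (1 : ℝ) - 1 / 2 = 1 / 2 by norm_num, ex_half, sub_self, Real.rpow_zero,
      Real.rpow_one, one_mul] at h2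
    have h3 : eLpNorm (fun x => 36 * |pd q.1 (fun y => v y q.2) x|) 3 (volume.restrict cube)
        = eLpNorm ((36 : ℝ) • pd q.1 fun y => v y q.2) 3 (volume.restrict cube) := by
      refine eLpNorm_congr_norm_ae (Eventually.of_forall fun x => ?_)
      simp only [Pi.smul_apply, smul_eq_mul, norm_mul, Real.norm_eq_abs, abs_abs]
    rw [h3, eLpNorm_const_smul]
    refine (mul_le_mul_right h2 _).trans (le_of_eq ?_)
    rw [Real.enorm_eq_ofReal (by norm_num), ← ENNReal.ofReal_mul (by norm_num)]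
    congr 1
    ring
  have h4 : ∀ x, ‖36 * √(gradSq v x)‖
      ≤ ‖∑ q : Fin 3 × Fin 3, 36 * |pd q.1 (fun y => v y q.2) x|‖ := by
    intro x
    rw [Real.norm_of_nonneg (by positivity), Real.norm_of_nonneg
      (Finset.sum_nonneg fun q _ => by positivity), ← Finset.mul_sum]
    gcongr
    rw [Real.sqrt_le_left (Finset.sum_nonneg fun q _ => abs_nonneg _)]
    unfold gradSq
    rw [← Fintype.sum_prod_type' (fun i j => gradM v x i j ^ 2)]
    have h5 : ∀ q : Fin 3 × Fin 3, gradM v x q.1 q.2 ^ 2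
        = |pd q.1 (fun y => v y q.2) x| * |pd q.1 (fun y => v y q.2) x| := by
      intro q
      rw [abs_mul_abs_self, ← sq]
      rfl
    simp_rw [h5]
    rw [sq, Finset.sum_mul_sum]
    refine Finset.sum_le_sum fun q _ => ?_
    exact Finset.single_le_sum (f := fun r : Fin 3 × Fin 3 =>
      |pd q.1 (fun y => v y q.2) x| * |pd r.1 (fun y => v y r.2) x|)
      (fun _ _ => by positivity) (Finset.mem_univ q)
  calc eLpNorm (fun x => 36 * √(gradSq v x)) 3 (volume.restrict cube)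
      ≤ eLpNorm (∑ q : Fin 3 × Fin 3, fun x => 36 * |pd q.1 (fun y => v y q.2) x|) 3
          (volume.restrict cube) := by
        refine eLpNorm_mono fun x => ?_
        rw [Finset.sum_apply]
        exact h4 x
    _ ≤ ∑ q : Fin 3 × Fin 3, eLpNorm (fun x => 36 * |pd q.1 (fun y => v y q.2) x|) 3
          (volume.restrict cube) :=
        eLpNorm_sum_le (fun q _ => ((hc q).abs.const_mul 36).aestronglyMeasurable) (by norm_num)
    _ ≤ ∑ _q : Fin 3 × Fin 3, ENNReal.ofReal (36 * (C * 16) * √(YY v)) :=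
        Finset.sum_le_sum fun q _ => h1 q
    _ = ENNReal.ofReal (9 * (36 * (C * 16)) * √(YY v)) := by
        rw [Finset.sum_const, Finset.card_univ, nsmul_eq_mul]
        obtain ⟨R, hR⟩ : ∃ R : ℝ, R = 36 * (C * 16) * √(YY v) := ⟨_, rfl⟩
        rw [show (9 * (36 * (C * 16)) * √(YY v) : ℝ) = 9 * (36 * (C * 16) * √(YY v)) by ring,
          ← hR, ENNReal.ofReal_mul (by norm_num)]
        norm_num

/-- Solutions with `∫ YY < ∞` are bounded. -/
theorem bdd_of_YY {ν T : ℝ} {u : ℝ → V → V} {P : ℝ → V → ℝ} (hν : 0 < ν) (h : IsSol ν T u P)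
    (hY : IntegrableOn (fun t => YY (u t)) (Ioo 0 T)) :
    ∃ M, ∀ t ∈ Ico 0 T, ∀ x i, |u t x i| ≤ M := by
  obtain ⟨K, hK, hg⟩ := grad_L3
  obtain ⟨C, -, hC⟩ := Pool.Agent.W268.NS.criterion (p := 3) (s := ∞) (q := 2) (r := 2)
    (ν := ν) (κ := 0) (by
      rw [ENNReal.div_lt_iff (by simp) (by simp)]
      norm_num) (by simp) (by
        rw [ENNReal.toReal_inv]
        norm_num) (by simp) hν one_pos
  refine (hC T u P (fun t => K * √(YY (u t))) (fun _ => 0) h (fun t _ =>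
    ⟨mul_nonneg hK (Real.sqrt_nonneg _), le_rfl⟩) ?_ ?_ fun t ht => ?_).2
  · refine IntegrableOn.congr_fun (hY.const_mul (K ^ 2)) (fun t _ => ?_) measurableSet_Ioo
    show K ^ 2 * YY (u t) = (K * √(YY (u t))) ^ (2 : ℝ)
    rw [Real.rpow_two, mul_pow, Real.sq_sqrt (YY_nn _)]
  · have : (fun _ : ℝ => (0 : ℝ) ^ (2 : ℝ)) = fun _ => 0 := by
      funext _
      norm_num
    rw [this]
    exact integrableOn_zero
  · have hI : t ∈ Ico 0 T := ⟨ht.1.le, ht.2⟩
    obtain ⟨hm, hb⟩ := hg (u t) fun i => h.sp hI i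
    have hex : ∀ x, excess 0 ν (fun x => 36 * √(gradSq (u t) x)) 0 (fun _ _ _ _ _ => 0) (u t) x
        ≤ 0 := by
      intro x
      have h1 := stretchRate_le (u t) x
      have h2 : quad (fun _ _ _ _ _ => (0 : V)) (u t) x = 0 := by
        unfold quad dvg
        simp [pd]
      unfold excess
      rw [h2]
      simp only [Matrix.zero_apply, zero_mul, Finset.sum_const_zero, sub_zero]
      linarith
    refine ⟨fun x => 36 * √(gradSq (u t) x), 0, fun _ _ _ _ _ => 0, ∅, hm, hb,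
      fun _ _ _ _ => ⟨contDiff_const, fun _ _ => rfl⟩, fun _ _ _ _ _ => ?_, measure_empty,
      fun x _ _ => hex x, fun x _ y _ _ hx hy => ?_⟩
    · show eLpNorm (fun _ => (0 : ℝ)) ∞ (volume.restrict cube) ≤ _
      rw [eLpNorm_zero']
      exact zero_le
    · exact (div_nonpos_of_nonpos_of_nonneg (hex x) hx.le).trans
        (div_nonneg_of_nonpos (hex y) hy.le)

theorem exp_eq {θ q : ℝ} (h1 : 2 / q = 2 - θ) (hθ : θ < 2) : q = 2 / (2 - θ) := by
  rw [← h1]
  have : q ≠ 0 := by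
    intro h0
    rw [h0, div_zero] at h1
    linarith
  field_simp

/-- **The criterion.** -/
theorem main {p₁ p₂ p₃ : ℝ≥0∞} (hp₁ : 3 < p₁) (hp₂ : 3 / 2 < p₂) (hp₂' : p₂ ≤ 6)
    (hp₃ : 3 / 2 < p₃) (hp₃' : p₃ ≤ 6) {q₁ q₂ q₃ : ℝ}
    (h₁ : 3 * (p₁⁻¹).toReal + 2 / q₁ = 1) (h₂ : 3 * (p₂⁻¹).toReal + 2 / q₂ = 2)
    (h₃ : 3 * (p₃⁻¹).toReal + 2 / q₃ = 2) {ν κ T : ℝ} (hν : 0 < ν) (hκ : κ < 1)
    {u : ℝ → V → V} {P : ℝ → V → ℝ} (h : IsSol ν T u P) {c : ℝ → V} {a b g : ℝ → V → ℝ}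
    {α β γ : ℝ → ℝ}
    (h0 : ∀ t ∈ Ioo 0 T, 0 ≤ α t ∧ 0 ≤ β t ∧ 0 ≤ γ t)
    (hα : IntegrableOn (fun t => α t ^ q₁) (Ioo 0 T))
    (hβ : IntegrableOn (fun t => β t ^ q₂) (Ioo 0 T))
    (hγ : IntegrableOn (fun t => γ t ^ q₃) (Ioo 0 T))
    (hm : ∀ t ∈ Ioo 0 T, AEStronglyMeasurable (a t) (volume.restrict cube) ∧
      AEStronglyMeasurable (b t) (volume.restrict cube) ∧
      AEStronglyMeasurable (g t) (volume.restrict cube))
    (hb : ∀ t ∈ Ioo 0 T, eLpNorm (a t) p₁ (volume.restrict cube) ≤ ENNReal.ofReal (α t) ∧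
      eLpNorm (b t) p₂ (volume.restrict cube) ≤ ENNReal.ofReal (β t) ∧
      eLpNorm (g t) p₃ (volume.restrict cube) ≤ ENNReal.ofReal (γ t))
    (hle : ∀ t ∈ Ioo 0 T, ∀ᵐ x ∂(volume.restrict cube),
      triple (u t x - c t) (vort (u t) x) (LamV 1 (u t) x)
        ≤ κ * ν * en (LamV (3 / 2) (u t) x) ^ 2
          + a t x * en (crossProduct (vort (u t) x) (LamV 1 (u t) x))
          + b t x * en (crossProduct (u t x - mean (u t)) (LamV 1 (u t) x))
          + g t x * en (crossProduct (u t x - mean (u t)) (vort (u t) x))) :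
    ∃ M, ∀ t ∈ Ico 0 T, ∀ x i, |u t x i| ≤ M := by
  obtain ⟨C, hC, hprod⟩ := prodH hp₁ hp₂ hp₂' hp₃ hp₃'
  have t1 : th p₁ < 1 := th_lt_one hp₁
  have t1' : 0 ≤ th p₁ := th_nonneg p₁
  have t2 : th p₂ < 2 := th_lt_two hp₂
  have t3 : th p₃ < 2 := th_lt_two hp₃
  have e1 : q₁ = 2 / (2 - (1 + th p₁)) := exp_eq (by
    have : th p₁ = 3 * (p₁⁻¹).toReal := rfl
    rw [this]
    linarith) (by linarith)
  have e2 : q₂ = 2 / (2 - th p₂) := exp_eq (by
    have : th p₂ = 3 * (p₂⁻¹).toReal := rfl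
    rw [this]
    linarith) t2
  have e3 : q₃ = 2 / (2 - th p₃) := exp_eq (by
    have : th p₃ = 3 * (p₃⁻¹).toReal := rfl
    rw [this]
    linarith) t3
  have hδ : 0 < 1 - κ := by linarith
  have hε : 0 < (1 - κ) * ν / 3 := by positivity
  obtain ⟨D₁, hD₁, Y₁⟩ := young2 (θ := 1 + th p₁) (ε := (1 - κ) * ν / 3) (c := 2 * C)
    (by linarith) (by linarith) hε (by positivity)
  obtain ⟨D₂, hD₂, Y₂⟩ := young2 (θ := th p₂) (ε := (1 - κ) * ν / 3) (c := 2 * C)
    (th_nonneg _) t2 hε (by positivity)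
  obtain ⟨D₃, hD₃, Y₃⟩ := young2 (θ := th p₃) (ε := (1 - κ) * ν / 3) (c := 2 * C)
    (th_nonneg _) t3 hε (by positivity)
  obtain ⟨G, hG⟩ : ∃ G : ℝ → ℝ, G = fun s => D₁ * α s ^ q₁ + D₂ * β s ^ q₂ + D₃ * γ s ^ q₃ :=
    ⟨_, rfl⟩
  have nα : ∀ s ∈ Ioo 0 T, 0 ≤ α s ^ q₁ := fun s hs => Real.rpow_nonneg (h0 s hs).1 _
  have nβ : ∀ s ∈ Ioo 0 T, 0 ≤ β s ^ q₂ := fun s hs => Real.rpow_nonneg (h0 s hs).2.1 _
  have nγ : ∀ s ∈ Ioo 0 T, 0 ≤ γ s ^ q₃ := fun s hs => Real.rpow_nonneg (h0 s hs).2.2 _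
  have hG0 : ∀ s ∈ Ioo 0 T, 0 ≤ G s := by
    intro s hs
    have := nα s hs
    have := nβ s hs
    have := nγ s hs
    rw [hG]
    show 0 ≤ D₁ * α s ^ q₁ + D₂ * β s ^ q₂ + D₃ * γ s ^ q₃
    positivity
  have hGi : IntegrableOn G (Ioo 0 T) := by
    rw [hG]
    exact ((hα.const_mul D₁).add (hβ.const_mul D₂)).add (hγ.const_mul D₃)
  have hGt : ∀ t ∈ Ico 0 T, IntegrableOn G (Icc 0 t) := by
    intro t ht
    rw [integrableOn_Icc_iff_integrableOn_Ioc, integrableOn_Ioc_iff_integrableOn_Ioo]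
    exact hGi.mono_set (Ioo_subset_Ioo_right ht.2.le)
  have hGB : ∀ t ∈ Ico 0 T, ∫ s in (0 : ℝ)..t, G s ≤ ∫ s in Ioo 0 T, G s := by
    intro t ht
    rw [intervalIntegral.integral_of_le ht.1, integral_Ioc_eq_integral_Ioo]
    refine setIntegral_mono_set hGi ?_ (Ioo_subset_Ioo_right ht.2.le).eventuallyLE
    filter_upwards [ae_restrict_mem measurableSet_Ioo] with s hs
    exact hG0 s hs
  obtain ⟨-, hgr⟩ := gron (y := fun s => XX (u s)) (Z := fun s => YY (u s)) (g := G)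
    (c := (1 - κ) * ν) (XX_continuousOn h) (YY_continuousOn h) (fun s _ => XX_nn _)
    (fun s _ => YY_nn _) (mul_pos hδ hν) (fun s hs => XX_hasDerivAt h hs (c s)) hG0 hGt hGB
    (fun s hs => by
      have hI : s ∈ Ico 0 T := ⟨hs.1.le, hs.2⟩
      have hpr := hprod (u s) (c s) (a s) (b s) (g s) (α s) (β s) (γ s) κ ν (fun i => h.sp hI i)
        (h0 s hs).1 (h0 s hs).2.1 (h0 s hs).2.2 (hm s hs).1 (hm s hs).2.1 (hm s hs).2.2
        (hb s hs).1 (hb s hs).2.1 (hb s hs).2.2 (hle s hs)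
      have y1 := Y₁ (α s) (√(XX (u s))) (√(YY (u s))) (h0 s hs).1 (Real.sqrt_nonneg _)
        (Real.sqrt_nonneg _)
      have y2 := Y₂ (β s) (√(XX (u s))) (√(YY (u s))) (h0 s hs).2.1 (Real.sqrt_nonneg _)
        (Real.sqrt_nonneg _)
      have y3 := Y₃ (γ s) (√(XX (u s))) (√(YY (u s))) (h0 s hs).2.2 (Real.sqrt_nonneg _)
        (Real.sqrt_nonneg _)
      rw [Real.sq_sqrt (XX_nn _), Real.sq_sqrt (YY_nn _)] at y1 y2 y3
      rw [← e1] at y1
      rw [← e2] at y2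
      rw [← e3] at y3
      have hGs : G s * XX (u s) = D₁ * (α s ^ q₁ * XX (u s)) + D₂ * (β s ^ q₂ * XX (u s))
          + D₃ * (γ s ^ q₃ * XX (u s)) := by
        rw [hG]
        ring
      show -(2 * ν * YY (u s)) + 2 * _ ≤ -((1 - κ) * ν * YY (u s)) + G s * XX (u s)
      rw [hGs]
      linarith)
  exact bdd_of_YY hν h (int_of_bdd (YY_continuousOn h) (fun s _ => YY_nn _) hgr)

end Pool.Agent.Helper21K2
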