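import Pool.Agent.Helper21K2.Sob

/-!
Fractional powers of the negative Laplacian on the torus (helper21).
-/

set_option autoImplicit false

open MeasureTheory Set Filter Topology
open scoped ContDiff ENNReal NNReal

namespace Pool.Agent.Helper21K2

open H459R3.NS

/-- `2 π |k|` -/
noncomputable def mm (k : K3) : ℝ := 2 * Real.pi * √(∑ j, (k j : ℝ) ^ 2)

theorem mm_nn (k : K3) : 0 ≤ mm k := by
  unfold mm
  have := Real.pi_pos
  positivity

theorem mm_neg (k : K3) : mm (-k) = mm k := by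
  unfold mm
  simp

theorem N_le_mm (k : K3) : (N k : ℝ) ≤ mm k := by
  unfold mm
  have h1 : (N k : ℝ) ≤ √(∑ j, (k j : ℝ) ^ 2) := by
    rw [← Real.sqrt_sq (Nat.cast_nonneg (N k) : (0 : ℝ) ≤ N k)]
    exact Real.sqrt_le_sqrt (N_sq_le k)
  have h2 : (1 : ℝ) ≤ 2 * Real.pi := by linarith [Real.pi_gt_three]
  calc (N k : ℝ) ≤ 1 * √(∑ j, (k j : ℝ) ^ 2) := by rwa [one_mul]
    _ ≤ _ := by gcongr

theorem mm_le (k : K3) : mm k ≤ 16 * N k := by
  unfold mm
  have h1 : √(∑ j, (k j : ℝ) ^ 2) ≤ 2 * N k := by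
    have h2 : ∑ j, (k j : ℝ) ^ 2 ≤ (2 * (N k : ℝ)) ^ 2 := by
      have h3 : ∀ j, (k j : ℝ) ^ 2 ≤ (N k : ℝ) ^ 2 := by
        intro j
        have := (N_le_iff k (N k)).1 le_rfl j
        have h4 : |(k j : ℝ)| ≤ N k := by exact_mod_cast this
        rw [← sq_abs]
        gcongr
      rw [Fin.sum_univ_three]
      nlinarith [h3 0, h3 1, h3 2, sq_nonneg (N k : ℝ)]
    calc √(∑ j, (k j : ℝ) ^ 2) ≤ √((2 * (N k : ℝ)) ^ 2) := Real.sqrt_le_sqrt h2
      _ = 2 * N k := Real.sqrt_sq (by positivity)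
  have := Real.pi_lt_four
  have h5 : (0 : ℝ) ≤ √(∑ j, (k j : ℝ) ^ 2) := Real.sqrt_nonneg _
  calc 2 * Real.pi * √(∑ j, (k j : ℝ) ^ 2) ≤ 2 * 4 * (2 * N k) := by
        have := Real.pi_pos
        gcongr
    _ = 16 * N k := by ring

theorem mm_sq (k : K3) : mm k ^ 2 = (2 * Real.pi) ^ 2 * ∑ j, (k j : ℝ) ^ 2 := by
  unfold mm
  rw [mul_pow, Real.sq_sqrt (Finset.sum_nonneg fun _ _ => sq_nonneg _)]

/-- The coefficients of `(-Δ)^(σ/2)`. -/
noncomputable def cf (σ : ℝ) (a : K3 → ℂ) (k : K3) : ℂ := ((mm k ^ σ : ℝ) : ℂ) * a k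

theorem norm_cf (σ : ℝ) (a : K3 → ℂ) (k : K3) : ‖cf σ a k‖ = mm k ^ σ * ‖a k‖ := by
  rw [cf, norm_mul, Complex.norm_real, Real.norm_eq_abs, abs_of_nonneg
    (Real.rpow_nonneg (mm_nn k) _)]

theorem rap_N {a : K3 → ℂ} (ha : Rap a) {σ : ℝ} (hσ : 0 ≤ σ) (n : ℕ) :
    Summable fun k => (N k : ℝ) ^ n * ((N k : ℝ) ^ σ * ‖a k‖) := by
  refine (rap_rpow ha (σ := n + σ) (by positivity)).of_nonneg_of_le (fun k => by positivity)
    fun k => ?_
  rw [← mul_assoc]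
  refine mul_le_mul_of_nonneg_right ?_ (norm_nonneg _)
  rcases Nat.eq_zero_or_pos (N k) with h | h
  · rw [h]
    rcases Nat.eq_zero_or_pos n with h2 | h2
    · rw [h2]
      simp
    · rw [Nat.cast_zero, zero_pow h2.ne', zero_mul]
      positivity
  · have h3 : (0 : ℝ) < N k := by exact_mod_cast h
    rw [Real.rpow_add h3, Real.rpow_natCast]

theorem rap_cf {a : K3 → ℂ} (ha : Rap a) {σ : ℝ} (hσ : 0 ≤ σ) : Rap (cf σ a) := by
  intro n
  refine Summable.of_nonneg_of_le (fun k => by positivity) (fun k => ?_)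
    ((rap_N ha hσ n).mul_left (16 ^ σ))
  rw [norm_cf]
  have h1 : mm k ^ σ ≤ 16 ^ σ * (N k : ℝ) ^ σ := by
    rw [← Real.mul_rpow (by norm_num) (Nat.cast_nonneg _)]
    exact Real.rpow_le_rpow (mm_nn k) (mm_le k) hσ
  calc (N k : ℝ) ^ n * (mm k ^ σ * ‖a k‖) ≤ (N k : ℝ) ^ n * (16 ^ σ * (N k : ℝ) ^ σ * ‖a k‖) := by
        gcongr
    _ = _ := by ring

/-- `(-Δ)^(σ/2) f` -/
noncomputable def Lam (σ : ℝ) (f : V → ℝ) (x : V) : ℝ := (S (cf σ (fr f)) x).re

/-- Hermitian sequences -/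
def Her (a : K3 → ℂ) : Prop := ∀ k, a (-k) = (starRingEnd ℂ) (a k)

theorem her_fr (f : V → ℝ) : Her (fr f) := by
  intro k
  unfold fr fc
  rw [← integral_conj]
  congr 1
  funext x
  rw [neg_neg, map_mul, Complex.conj_ofReal, ← ee_neg, neg_neg]

theorem her_cf {a : K3 → ℂ} (ha : Her a) (σ : ℝ) : Her (cf σ a) := by
  intro k
  unfold cf
  rw [mm_neg, ha k, map_mul, Complex.conj_ofReal]

theorem S_re {a : K3 → ℂ} (ha : Her a) (x : V) : ((S a x).re : ℂ) = S a x := by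
  have h : (starRingEnd ℂ) (S a x) = S a x := by
    unfold S
    rw [Complex.conj_tsum, ← (Equiv.neg K3).tsum_eq]
    refine tsum_congr fun k => ?_
    rw [map_mul, Equiv.neg_apply, ee_neg, Complex.conj_conj, ← ha (-k), neg_neg]
  exact Complex.conj_eq_iff_re.1 h

theorem Lam_eq (σ : ℝ) (f : V → ℝ) (x : V) : (Lam σ f x : ℂ) = S (cf σ (fr f)) x :=
  S_re (her_cf (her_fr f) σ) x

theorem Lam_cont {σ : ℝ} (hσ : 0 ≤ σ) {f : V → ℝ} (hf : SP f) : Continuous (Lam σ f) :=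
  Complex.continuous_re.comp (S_continuous (rap_cf (rap_fr hf) hσ).summable)

/-- The bilinear form `∫ f (-Δ)^(σ/2) g`. -/
noncomputable def BB (σ : ℝ) (f g : V → ℝ) : ℝ :=
  ∑' k, mm k ^ σ * (fr f k * (starRingEnd ℂ) (fr g k)).re

theorem int_Lam {σ : ℝ} (hσ : 0 ≤ σ) {f g : V → ℝ} (hf : SP f) (hg : Continuous g) :
    HasSum (fun k => mm k ^ σ * (fr f k * (starRingEnd ℂ) (fr g k)).re)
      (∫ x in cube, g x * Lam σ f x) := by
  have h := integral_S_mul (rap_cf (rap_fr hf) hσ).summable (g := fun x => (g x : ℂ))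
    (Complex.continuous_ofReal.comp hg)
  have e1 : (∫ x in cube, S (cf σ (fr f)) x * (g x : ℂ))
      = ((∫ x in cube, g x * Lam σ f x : ℝ) : ℂ) := by
    rw [← integral_complex_ofReal]
    congr 1
    funext x
    rw [← Lam_eq]
    push_cast
    ring
  rw [e1] at h
  have h2 := Complex.hasSum_re h
  rw [Complex.ofReal_re] at h2
  refine h2.congr_fun fun k => ?_
  have e2 : ∫ x in cube, ee k x * (g x : ℂ) = (starRingEnd ℂ) (fr g k) := by
    rw [← her_fr g k]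
    unfold fr fc
    rw [neg_neg]
  rw [e2, cf, mul_assoc, Complex.re_ofReal_mul]

theorem int_Lam_eq {σ : ℝ} (hσ : 0 ≤ σ) {f g : V → ℝ} (hf : SP f) (hg : Continuous g) :
    ∫ x in cube, g x * Lam σ f x = BB σ f g := (int_Lam hσ hf hg).tsum_eq.symm

theorem BB_symm (σ : ℝ) (f g : V → ℝ) : BB σ f g = BB σ g f := by
  unfold BB
  refine tsum_congr fun k => ?_
  congr 1
  simp only [Complex.mul_re, Complex.conj_re, Complex.conj_im]
  ring

theorem BB_self (σ : ℝ) (f : V → ℝ) : BB σ f f = ∑' k, mm k ^ σ * ‖fr f k‖ ^ 2 := by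
  unfold BB
  refine tsum_congr fun k => ?_
  rw [Complex.mul_conj, Complex.normSq_eq_norm_sq, Complex.ofReal_re]

theorem BB_nn (σ : ℝ) (f : V → ℝ) : 0 ≤ BB σ f f := by
  rw [BB_self]
  exact tsum_nonneg fun k => mul_nonneg (Real.rpow_nonneg (mm_nn k) _) (sq_nonneg _)

theorem summable_mm {a : K3 → ℂ} (ha : Rap a) {σ : ℝ} (hσ : 0 ≤ σ) :
    Summable fun k => mm k ^ σ * ‖a k‖ ^ 2 := by
  refine ((rap_sq ha hσ).mul_left (16 ^ σ)).of_nonneg_of_le
    (fun k => mul_nonneg (Real.rpow_nonneg (mm_nn k) _) (sq_nonneg _)) fun k => ?_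
  have h1 : mm k ^ σ ≤ 16 ^ σ * (N k : ℝ) ^ σ := by
    rw [← Real.mul_rpow (by norm_num) (Nat.cast_nonneg _)]
    exact Real.rpow_le_rpow (mm_nn k) (mm_le k) hσ
  calc mm k ^ σ * ‖a k‖ ^ 2 ≤ 16 ^ σ * (N k : ℝ) ^ σ * ‖a k‖ ^ 2 := by gcongr
    _ = _ := by ring

/-- The `L²` norm of `(-Δ)^(σ/2) f`. -/
theorem int_Lam_sq {σ : ℝ} (hσ : 0 ≤ σ) {f : V → ℝ} (hf : SP f) :
    ∫ x in cube, Lam σ f x ^ 2 = BB (2 * σ) f f := by
  have h := integral_norm_sq (rap_cf (rap_fr hf) hσ).summable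
  have e1 : ∀ x, ‖S (cf σ (fr f)) x‖ ^ 2 = Lam σ f x ^ 2 := by
    intro x
    rw [← Lam_eq, Complex.norm_real, Real.norm_eq_abs, sq_abs]
  simp_rw [e1] at h
  rw [h, n2_sq, BB_self]
  refine tsum_congr fun k => ?_
  rw [norm_cf, mul_pow, ← Real.rpow_natCast (mm k ^ σ), ← Real.rpow_mul (mm_nn k)]
  congr 2
  push_cast
  ring

theorem BB_two {f : V → ℝ} (hf : SP f) : BB 2 f f = grd f ^ 2 := by
  rw [grd_sq, BB_self]
  have e : ∀ j, ∫ x in cube, pd j f x ^ 2 = ∑' k, ‖D j (fr f) k‖ ^ 2 := by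
    intro j
    rw [← n2_fr (hf.pd j), fr_pd hf, n2_sq]
  simp_rw [e]
  rw [← Summable.tsum_finsetSum fun j _ => summable_sq ((rap_fr hf).D j).summable]
  refine tsum_congr fun k => ?_
  have hn : ∀ j : Fin 3, ‖D j (fr f) k‖ ^ 2
      = (2 * Real.pi) ^ 2 * (k j : ℝ) ^ 2 * ‖fr f k‖ ^ 2 := by
    intro j
    rw [D, norm_mul, norm_mul, norm_mul, norm_mul, Complex.norm_I, mul_one, Complex.norm_real,
      Real.norm_eq_abs, abs_of_pos Real.pi_pos, Complex.norm_ofNat, Complex.norm_intCast,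
      mul_pow, mul_pow, sq_abs]
  simp_rw [hn]
  rw [← Finset.sum_mul, ← Finset.mul_sum, ← mm_sq, ← Real.rpow_natCast]
  norm_num

theorem nrm_Lam {f : V → ℝ} (hf : SP f) : nrm (Lam 1 f) = grd f := by
  unfold nrm
  rw [int_Lam_sq zero_le_one hf, mul_one, BB_two hf, Real.sqrt_sq (grd_nonneg f)]

/-- The form is bounded. -/
theorem abs_BB_le {f g : V → ℝ} (hf : SP f) (hg : SP g) : |BB 1 f g| ≤ nrm g * grd f := by
  rw [← int_Lam_eq zero_le_one hf hg.cont, ← nrm_Lam hf]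
  exact abs_int_mul_le hg.cont (Lam_cont zero_le_one hf)

theorem fr_sub {f g : V → ℝ} (hf : Continuous f) (hg : Continuous g) (k : K3) :
    fr (fun x => f x - g x) k = fr f k - fr g k := by
  unfold fr fc
  have i1 : IntegrableOn (fun x => ee (-k) x * (f x : ℂ)) cube :=
    integrableOn_cube ((ee_continuous _).mul (Complex.continuous_ofReal.comp hf))
  have i2 : IntegrableOn (fun x => ee (-k) x * (g x : ℂ)) cube :=
    integrableOn_cube ((ee_continuous _).mul (Complex.continuous_ofReal.comp hg))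
  have h := integral_sub i1 i2
  refine Eq.trans ?_ h
  congr 1
  funext x
  push_cast
  ring

theorem fr_smul (c : ℝ) (f : V → ℝ) (k : K3) : fr (fun x => c * f x) k = c * fr f k := by
  unfold fr fc
  rw [← integral_const_mul]
  congr 1
  funext x
  push_cast
  ring

theorem summable_BB {σ : ℝ} (hσ : 0 ≤ σ) {f g : V → ℝ} (hf : SP f) (hg : Continuous g) :
    Summable fun k => mm k ^ σ * (fr f k * (starRingEnd ℂ) (fr g k)).re :=
  (int_Lam hσ hf hg).summable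

theorem BB_sub_left {σ : ℝ} (hσ : 0 ≤ σ) {f g h : V → ℝ} (hf : SP f) (hg : SP g)
    (hh : Continuous h) : BB σ (fun x => f x - g x) h = BB σ f h - BB σ g h := by
  unfold BB
  rw [← (summable_BB hσ hf hh).tsum_sub (summable_BB hσ hg hh)]
  refine tsum_congr fun k => ?_
  rw [fr_sub hf.cont hg.cont, sub_mul, Complex.sub_re]
  ring

theorem BB_smul_left (σ : ℝ) (c : ℝ) (f g : V → ℝ) :
    BB σ (fun x => c * f x) g = c * BB σ f g := by
  unfold BB
  rw [← tsum_mul_left]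
  refine tsum_congr fun k => ?_
  rw [fr_smul, mul_assoc, Complex.re_ofReal_mul]
  ring

theorem BB_sub_right {σ : ℝ} (hσ : 0 ≤ σ) {f g h : V → ℝ} (hf : SP f) (hg : SP g)
    (hh : Continuous h) : BB σ h (fun x => f x - g x) = BB σ h f - BB σ h g := by
  rw [BB_symm, BB_sub_left hσ hf hg hh, BB_symm σ f, BB_symm σ g]

theorem BB_smul_right (σ : ℝ) (c : ℝ) (f g : V → ℝ) :
    BB σ f (fun x => c * g x) = c * BB σ f g := by
  rw [BB_symm, BB_smul_left, BB_symm]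

theorem fr_lap {f : V → ℝ} (hf : SP f) (k : K3) : fr (lap f) k = -((mm k ^ 2 : ℝ) : ℂ) * fr f k := by
  have e2 : fr (lap f) k = ∑ j, D j (D j (fr f)) k := by
    unfold lap
    rw [fr_sum fun j _ => (hf.pd j).pd j]
    refine Finset.sum_congr rfl fun j _ => ?_
    rw [fr_pd (hf.pd j), fr_pd hf]
  rw [e2, mm_sq]
  unfold D
  push_cast
  rw [Finset.mul_sum, ← Finset.sum_neg_distrib, Finset.sum_mul]
  refine Finset.sum_congr rfl fun j _ => ?_
  have := Complex.I_sq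
  linear_combination ((2 * Real.pi : ℂ) ^ 2 * (k j : ℂ) ^ 2 * fr f k) * this

/-- The dissipation. -/
theorem BB_lap {f g : V → ℝ} (hf : SP f) : BB 1 (lap f) g = -BB 3 f g := by
  unfold BB
  rw [← tsum_neg]
  refine tsum_congr fun k => ?_
  rw [fr_lap hf]
  have e : mm k ^ (3 : ℝ) = mm k ^ (1 : ℝ) * mm k ^ 2 := by
    have h3 : (3 : ℝ) = ((3 : ℕ) : ℝ) := by norm_num
    rw [h3, Real.rpow_natCast, Real.rpow_one]
    ring
  rw [e, neg_mul, neg_mul, Complex.neg_re, mul_assoc, Complex.re_ofReal_mul]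
  ring

theorem HH_le {f : V → ℝ} (hf : SP f) {s : ℝ} (hs : 0 ≤ s) : HH s (fr f) ≤ BB (2 * s) f f := by
  rw [BB_self]
  unfold HH
  refine Summable.tsum_le_tsum (fun k => ?_) (rap_sq (rap_fr hf) (by positivity))
    (summable_mm (rap_fr hf) (by positivity))
  exact mul_le_mul_of_nonneg_right (Real.rpow_le_rpow (Nat.cast_nonneg _) (N_le_mm k)
    (by positivity)) (sq_nonneg _)

end Pool.Agent.Helper21K2
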