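import Pool.Agent.H459R3.NS.Iso

/-!
Sums over the lattice and the bound of the low frequencies (helper21).
-/

set_option autoImplicit false

open MeasureTheory Set Filter Topology
open scoped ContDiff ENNReal NNReal

namespace Pool.Agent.Helper21K2

open H459R3.NS

/-- one dimension -/
theorem sum_rpow_le {τ : ℝ} (h0 : 0 ≤ τ) (h1 : τ < 1) (m : ℕ) :
    ∑ n ∈ Finset.range m, ((n : ℝ) + 1) ^ (-τ) ≤ (m : ℝ) ^ (1 - τ) / (1 - τ) := by
  have hp : 0 < 1 - τ := by linarith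
  induction m with
  | zero => simp [Real.zero_rpow hp.ne']
  | succ m ih =>
    rw [Finset.sum_range_succ]
    refine (add_le_add_left ih _).trans ?_
    have hm : (0 : ℝ) < (m : ℝ) + 1 := by positivity
    push_cast
    -- Bernoulli
    have hb : ((m : ℝ) / (m + 1)) ^ (1 - τ) ≤ 1 - (1 - τ) / (m + 1) := by
      have h2 := rpow_one_add_le_one_add_mul_self (s := -(1 / ((m : ℝ) + 1))) (by
        rw [neg_le_neg_iff, div_le_one hm]
        have : (0 : ℝ) ≤ m := by positivity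
        linarith) hp.le (by linarith)
      have e : 1 + -(1 / ((m : ℝ) + 1)) = (m : ℝ) / (m + 1) := by
        field_simp
        ring
      rw [e] at h2
      refine h2.trans (le_of_eq ?_)
      ring
    have e1 : ((m : ℝ) / (m + 1)) ^ (1 - τ) = (m : ℝ) ^ (1 - τ) / ((m : ℝ) + 1) ^ (1 - τ) :=
      Real.div_rpow (by positivity) hm.le _
    rw [e1] at hb
    have hM : 0 < ((m : ℝ) + 1) ^ (1 - τ) := Real.rpow_pos_of_pos hm _
    rw [div_le_iff₀ hM] at hb
    have e2 : ((m : ℝ) + 1) ^ (-τ) = ((m : ℝ) + 1) ^ (1 - τ) / (m + 1) := by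
      rw [show -τ = (1 - τ) - 1 by ring, Real.rpow_sub_one hm.ne']
    rw [e2, ← sub_nonneg]
    have e3 : ((m : ℝ) + 1) ^ (1 - τ) / (1 - τ) - ((m : ℝ) ^ (1 - τ) / (1 - τ)
        + ((m : ℝ) + 1) ^ (1 - τ) / (m + 1))
        = ((1 - (1 - τ) / (m + 1)) * ((m : ℝ) + 1) ^ (1 - τ) - (m : ℝ) ^ (1 - τ)) / (1 - τ) := by
      field_simp
      ring
    rw [e3]
    exact div_nonneg (by linarith) hp.le

/-- the weight in one dimension -/
noncomputable def w1 (τ : ℝ) (n : ℤ) : ℝ := (max |(n : ℝ)| 1) ^ (-τ)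

theorem w1_nn (τ : ℝ) (n : ℤ) : 0 ≤ w1 τ n := Real.rpow_nonneg (by positivity) _

theorem sum_union_le' {f : ℤ → ℝ} (hf : ∀ n, 0 ≤ f n) (s t : Finset ℤ) :
    ∑ n ∈ s ∪ t, f n ≤ ∑ n ∈ s, f n + ∑ n ∈ t, f n := by
  rw [← Finset.sum_union_inter]
  have := Finset.sum_nonneg (s := s ∩ t) fun n _ => hf n
  linarith

theorem sum_w1_le {τ : ℝ} (h0 : 0 ≤ τ) (h1 : τ < 1) (m : ℕ) (hm : 1 ≤ m) :
    ∑ n ∈ Finset.Icc (-(m : ℤ)) m, w1 τ n ≤ 3 / (1 - τ) * (m : ℝ) ^ (1 - τ) := by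
  have hp : 0 < 1 - τ := by linarith
  have hsub : Finset.Icc (-(m : ℤ)) m ⊆ {0} ∪ ((Finset.range m).image (fun n : ℕ => (n : ℤ) + 1) ∪
      (Finset.range m).image (fun n : ℕ => -((n : ℤ) + 1))) := by
    intro n hn
    rw [Finset.mem_Icc] at hn
    rw [Finset.mem_union, Finset.mem_union, Finset.mem_image, Finset.mem_image,
      Finset.mem_singleton]
    rcases lt_trichotomy n 0 with h | h | h
    · right; right
      exact ⟨(-n - 1).toNat, by rw [Finset.mem_range]; omega, by omega⟩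
    · left; exact h
    · right; left
      exact ⟨(n - 1).toNat, by rw [Finset.mem_range]; omega, by omega⟩
  have hs := sum_rpow_le h0 h1 m
  have e1 : ∑ n ∈ (Finset.range m).image (fun n : ℕ => (n : ℤ) + 1), w1 τ n
      ≤ ∑ n ∈ Finset.range m, ((n : ℝ) + 1) ^ (-τ) := by
    rw [Finset.sum_image (fun a _ b _ hab => by simpa using hab)]
    refine Finset.sum_le_sum fun n _ => le_of_eq ?_
    unfold w1
    push_cast
    rw [abs_of_nonneg (by positivity), max_eq_left (by linarith [(Nat.cast_nonneg n : (0:ℝ) ≤ n)])]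
  have e2 : ∑ n ∈ (Finset.range m).image (fun n : ℕ => -((n : ℤ) + 1)), w1 τ n
      ≤ ∑ n ∈ Finset.range m, ((n : ℝ) + 1) ^ (-τ) := by
    rw [Finset.sum_image (fun a _ b _ hab => by simpa using hab)]
    refine Finset.sum_le_sum fun n _ => le_of_eq ?_
    unfold w1
    push_cast
    rw [abs_of_nonpos (by linarith [(Nat.cast_nonneg n : (0:ℝ) ≤ n)]),
      max_eq_left (by linarith [(Nat.cast_nonneg n : (0:ℝ) ≤ n)])]
    congr 1
    ring
  have e0 : ∑ n ∈ ({0} : Finset ℤ), w1 τ n = 1 := by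
    rw [Finset.sum_singleton]
    unfold w1
    simp
  have hm1 : (1 : ℝ) ≤ (m : ℝ) ^ (1 - τ) := Real.one_le_rpow (by exact_mod_cast hm) hp.le
  have hm2 : (1 : ℝ) ≤ (m : ℝ) ^ (1 - τ) / (1 - τ) := by
    rw [le_div_iff₀ hp]
    linarith
  calc ∑ n ∈ Finset.Icc (-(m : ℤ)) m, w1 τ n
      ≤ ∑ n ∈ {0} ∪ ((Finset.range m).image (fun n : ℕ => (n : ℤ) + 1) ∪
      (Finset.range m).image (fun n : ℕ => -((n : ℤ) + 1))), w1 τ n :=
        Finset.sum_le_sum_of_subset_of_nonneg hsub fun _ _ _ => w1_nn _ _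
    _ ≤ ∑ n ∈ ({0} : Finset ℤ), w1 τ n + (∑ n ∈ (Finset.range m).image
        (fun n : ℕ => (n : ℤ) + 1), w1 τ n + ∑ n ∈ (Finset.range m).image
        (fun n : ℕ => -((n : ℤ) + 1)), w1 τ n) := by
        refine (sum_union_le' (w1_nn τ) _ _).trans ?_
        gcongr
        exact sum_union_le' (w1_nn τ) _ _
    _ ≤ 3 / (1 - τ) * (m : ℝ) ^ (1 - τ) := by
        rw [e0]
        have : 3 / (1 - τ) * (m : ℝ) ^ (1 - τ) = 3 * ((m : ℝ) ^ (1 - τ) / (1 - τ)) := by ring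
        rw [this]
        linarith

/-- the cube in the lattice -/
noncomputable def FF (m : ℕ) : Finset K3 := Fintype.piFinset fun _ => Finset.Icc (-(m : ℤ)) m

theorem mem_FF {m : ℕ} {k : K3} : k ∈ FF m ↔ N k ≤ m := by
  unfold FF
  rw [Fintype.mem_piFinset, N_le_iff]
  exact forall_congr' fun j => by rw [Finset.mem_Icc, abs_le]

theorem N_pos {k : K3} (hk : k ≠ 0) : (1 : ℝ) ≤ N k := by
  have h : N k ≠ 0 := fun h => hk (N_eq_zero.1 h)
  exact_mod_cast Nat.one_le_iff_ne_zero.2 h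

theorem sum_N_le {s : ℝ} (h0 : 0 ≤ s) (h1 : s < 3 / 2) (m : ℕ) (hm : 1 ≤ m) :
    ∑ k ∈ (FF m).erase 0, (N k : ℝ) ^ (-(2 * s))
      ≤ (3 / (1 - 2 * s / 3)) ^ 3 * (m : ℝ) ^ (3 - 2 * s) := by
  obtain ⟨τ, hτ⟩ : ∃ τ : ℝ, τ = 2 * s / 3 := ⟨_, rfl⟩
  have hτ0 : 0 ≤ τ := by rw [hτ]; positivity
  have hτ1 : τ < 1 := by rw [hτ]; linarith
  have hm0 : (0 : ℝ) < m := by exact_mod_cast hm
  have h2 : ∀ k ∈ (FF m).erase 0, (N k : ℝ) ^ (-(2 * s)) ≤ ∏ j, w1 τ (k j) := by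
    intro k hk
    have hk0 := N_pos (Finset.ne_of_mem_erase hk)
    have hN : (0 : ℝ) < N k := by linarith
    have e : (N k : ℝ) ^ (-(2 * s)) = ∏ _j : Fin 3, (N k : ℝ) ^ (-τ) := by
      rw [Finset.prod_const, Finset.card_univ, Fintype.card_fin, ← Real.rpow_natCast,
        ← Real.rpow_mul hN.le, hτ]
      congr 1
      push_cast
      ring
    rw [e]
    refine Finset.prod_le_prod (fun _ _ => Real.rpow_nonneg hN.le _) fun j _ => ?_
    unfold w1
    have h3 : max |(k j : ℝ)| 1 ≤ N k := by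
      refine max_le ?_ hk0
      have := (N_le_iff k (N k)).1 le_rfl j
      have h4 : ((|k j| : ℤ) : ℝ) ≤ ((N k : ℤ) : ℝ) := by exact_mod_cast this
      simpa using h4
    exact Real.rpow_le_rpow_of_nonpos (by positivity) h3 (by linarith)
  calc ∑ k ∈ (FF m).erase 0, (N k : ℝ) ^ (-(2 * s))
      ≤ ∑ k ∈ (FF m).erase 0, ∏ j, w1 τ (k j) := Finset.sum_le_sum h2
    _ ≤ ∑ k ∈ FF m, ∏ j, w1 τ (k j) :=
        Finset.sum_le_sum_of_subset_of_nonneg (Finset.erase_subset _ _) fun k _ _ =>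
          Finset.prod_nonneg fun j _ => w1_nn _ _
    _ = ∏ _j : Fin 3, ∑ n ∈ Finset.Icc (-(m : ℤ)) m, w1 τ n := by
        rw [Finset.prod_univ_sum]
        rfl
    _ ≤ ∏ _j : Fin 3, (3 / (1 - τ) * (m : ℝ) ^ (1 - τ)) :=
        Finset.prod_le_prod (fun _ _ => Finset.sum_nonneg fun n _ => w1_nn _ _)
          fun _ _ => sum_w1_le hτ0 hτ1 m hm
    _ = _ := by
        rw [Finset.prod_const, Finset.card_univ, Fintype.card_fin, mul_pow, ← Real.rpow_natCast
          ((m : ℝ) ^ (1 - τ)), ← Real.rpow_mul hm0.le, hτ]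
        congr 2
        push_cast
        ring

/-- The square of the homogeneous Sobolev norm of order `s`. -/
noncomputable def HH (s : ℝ) (a : K3 → ℂ) : ℝ := ∑' k, (N k : ℝ) ^ (2 * s) * ‖a k‖ ^ 2

theorem HH_nn (s : ℝ) (a : K3 → ℂ) : 0 ≤ HH s a :=
  tsum_nonneg fun k => by positivity

theorem rap_rpow {a : K3 → ℂ} (ha : Rap a) {σ : ℝ} (hσ : 0 ≤ σ) :
    Summable fun k => (N k : ℝ) ^ σ * ‖a k‖ := by
  obtain ⟨n, hn⟩ := exists_nat_ge σ
  refine Summable.of_nonneg_of_le (fun k => by positivity) (fun k => ?_)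
    (ha.summable.norm.add (ha n))
  have h1 : (N k : ℝ) ^ σ ≤ 1 + (N k : ℝ) ^ n := by
    rcases Nat.eq_zero_or_pos (N k) with h | h
    · rw [h]
      rcases hσ.eq_or_lt with h2 | h2
      · rw [← h2, Real.rpow_zero]
        simp
      · rw [Nat.cast_zero, Real.zero_rpow h2.ne']
        positivity
    · have h3 : (1 : ℝ) ≤ N k := by exact_mod_cast h
      calc (N k : ℝ) ^ σ ≤ (N k : ℝ) ^ (n : ℝ) := Real.rpow_le_rpow_of_exponent_le h3 hn
        _ = (N k : ℝ) ^ n := Real.rpow_natCast _ _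
        _ ≤ _ := by linarith
  calc (N k : ℝ) ^ σ * ‖a k‖ ≤ (1 + (N k : ℝ) ^ n) * ‖a k‖ := by gcongr
    _ = _ := by ring

theorem rap_sq {a : K3 → ℂ} (ha : Rap a) {σ : ℝ} (hσ : 0 ≤ σ) :
    Summable fun k => (N k : ℝ) ^ σ * ‖a k‖ ^ 2 := by
  have hM : ∀ k, ‖a k‖ ≤ ∑' m, ‖a m‖ := fun k => ha.summable.norm.le_tsum k fun _ _ => norm_nonneg _
  refine Summable.of_nonneg_of_le (fun k => by positivity) (fun k => ?_)
    ((rap_rpow ha hσ).mul_right (∑' m, ‖a m‖))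
  rw [sq, ← mul_assoc]
  exact mul_le_mul_of_nonneg_left (hM k) (by positivity)

/-- The bound of the low frequencies. -/
theorem low_le {s : ℝ} (h0 : 0 ≤ s) (h1 : s < 3 / 2) : ∃ C : ℝ, 0 < C ∧ ∀ a : K3 → ℂ, Rap a →
    a 0 = 0 → ∀ (m : ℕ) (x : V), ‖S ({k | N k ≤ m}.indicator a) x‖
      ≤ C * (m : ℝ) ^ (3 / 2 - s) * √(HH s a) := by
  refine ⟨√((3 / (1 - 2 * s / 3)) ^ 3), Real.sqrt_pos.2 (pow_pos (div_pos (by norm_num)
    (by linarith)) 3), fun a ha h00 m x => ?_⟩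
  have hK : 0 ≤ (3 / (1 - 2 * s / 3)) ^ 3 := (pow_pos (div_pos (by norm_num) (by linarith)) 3).le
  have hind : Summable ({k | N k ≤ m}.indicator a) := (ha.ind _).summable
  refine (norm_S_le hind x).trans ?_
  have e1 : ∑' k, ‖({k | N k ≤ m}.indicator a) k‖ = ∑ k ∈ (FF m).erase 0, ‖a k‖ := by
    rw [tsum_eq_sum (s := (FF m).erase 0)]
    · refine Finset.sum_congr rfl fun k hk => ?_
      rw [indicator_of_mem (show k ∈ {k | N k ≤ m} from mem_FF.1 (Finset.mem_of_mem_erase hk))]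
    · intro k hk
      by_cases hk0 : k = 0
      · rw [hk0]
        have : ({k | N k ≤ m}.indicator a) (0 : K3) = 0 := by
          rw [indicator_apply]
          split_ifs
          · exact h00
          · rfl
        rw [this, norm_zero]
      · have hkm : k ∉ {k | N k ≤ m} := fun h => hk (Finset.mem_erase.2 ⟨hk0, mem_FF.2 h⟩)
        rw [indicator_of_notMem hkm, norm_zero]
  rw [e1]
  have hHs := rap_sq ha (σ := 2 * s) (by positivity)
  have hH : ∑ k ∈ (FF m).erase 0, (N k : ℝ) ^ (2 * s) * ‖a k‖ ^ 2 ≤ HH s a :=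
    hHs.sum_le_tsum _ fun k _ => by positivity
  rcases Nat.eq_zero_or_pos m with hm | hm
  · subst hm
    have : (FF 0).erase 0 = ∅ := by
      refine Finset.eq_empty_of_forall_notMem fun k hk => ?_
      have h2 := mem_FF.1 (Finset.mem_of_mem_erase hk)
      exact Finset.ne_of_mem_erase hk (N_eq_zero.1 (Nat.le_zero.1 h2))
    rw [this, Finset.sum_empty]
    positivity
  · have hL := sum_N_le h0 h1 m hm
    have hcs := Finset.sum_mul_sq_le_sq_mul_sq ((FF m).erase 0)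
      (fun k => (N k : ℝ) ^ (-s)) (fun k => (N k : ℝ) ^ s * ‖a k‖)
    have e2 : ∀ k ∈ (FF m).erase 0, (N k : ℝ) ^ (-s) * ((N k : ℝ) ^ s * ‖a k‖) = ‖a k‖ := by
      intro k hk
      have hN : (0 : ℝ) < N k := by linarith [N_pos (Finset.ne_of_mem_erase hk)]
      rw [← mul_assoc, ← Real.rpow_add hN, neg_add_cancel, Real.rpow_zero, one_mul]
    rw [Finset.sum_congr rfl e2] at hcs
    have e3 : ∀ k ∈ (FF m).erase 0, ((N k : ℝ) ^ (-s)) ^ 2 = (N k : ℝ) ^ (-(2 * s)) := by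
      intro k hk
      have hN : (0 : ℝ) < N k := by linarith [N_pos (Finset.ne_of_mem_erase hk)]
      rw [← Real.rpow_natCast, ← Real.rpow_mul hN.le]
      congr 1
      push_cast
      ring
    have e4 : ∀ k ∈ (FF m).erase 0, ((N k : ℝ) ^ s * ‖a k‖) ^ 2
        = (N k : ℝ) ^ (2 * s) * ‖a k‖ ^ 2 := by
      intro k hk
      have hN : (0 : ℝ) < N k := by linarith [N_pos (Finset.ne_of_mem_erase hk)]
      rw [mul_pow, ← Real.rpow_natCast, ← Real.rpow_mul hN.le]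
      congr 2
      push_cast
      ring
    rw [Finset.sum_congr rfl e3, Finset.sum_congr rfl e4] at hcs
    have hm0 : (0 : ℝ) < m := by exact_mod_cast hm
    have h5 : (∑ k ∈ (FF m).erase 0, ‖a k‖) ^ 2 ≤
        ((3 / (1 - 2 * s / 3)) ^ 3 * (m : ℝ) ^ (3 - 2 * s)) * HH s a :=
      hcs.trans (mul_le_mul hL hH (Finset.sum_nonneg fun k _ => by positivity)
        (mul_nonneg hK (by positivity)))
    rw [← Real.sqrt_sq (Finset.sum_nonneg fun k _ => norm_nonneg _ :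
      0 ≤ ∑ k ∈ (FF m).erase 0, ‖a k‖)]
    refine (Real.sqrt_le_sqrt h5).trans (le_of_eq ?_)
    rw [Real.sqrt_mul (mul_nonneg hK (by positivity)), Real.sqrt_mul hK]
    congr 2
    rw [Real.sqrt_eq_rpow, ← Real.rpow_mul hm0.le]
    congr 1
    ring

end Pool.Agent.Helper21K2
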