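import Pool.Agent.Helper21K2.EvoH
import Pool.Agent.W268.NS.Fin

/-!
The balance of the norm of order one half (helper21).
-/

set_option autoImplicit false

open MeasureTheory Set Filter Topology
open scoped ContDiff ENNReal NNReal

namespace Pool.Agent.Helper21K2

open H459R3.NS Pool.Agent.W268.NS

/-- `(-Δ)^(σ/2)` of a vector field. -/
noncomputable def LamV (σ : ℝ) (v : V → V) (x : V) : V := fun i => Lam σ (fun y => v y i) x

/-- The triple product `a · (b × c)`. -/
noncomputable def triple (a b c : V) : ℝ := dotProduct a (crossProduct b c)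

theorem triple_eq (a b c : V) : triple a b c = a 0 * (b 1 * c 2 - b 2 * c 1)
    + a 1 * (b 2 * c 0 - b 0 * c 2) + a 2 * (b 0 * c 1 - b 1 * c 0) := by
  unfold triple
  rw [cross_apply]
  simp [dotProduct, Fin.sum_univ_three]

/-- `∑ mm |f̂|² Re(i k) = 0` -/
theorem BB_pd {f : V → ℝ} (hf : SP f) (σ : ℝ) (j : Fin 3) : BB σ f (pd j f) = 0 := by
  unfold BB
  have : ∀ k, mm k ^ σ * (fr f k * (starRingEnd ℂ) (fr (pd j f) k)).re = 0 := by
    intro k
    rw [fr_pd hf, D, map_mul, map_mul, map_mul, map_mul, Complex.conj_I, Complex.conj_ofReal]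
    have e : fr f k * ((starRingEnd ℂ) 2 * ↑Real.pi * -Complex.I * (starRingEnd ℂ) (k j : ℂ) *
        (starRingEnd ℂ) (fr f k)) =
        ((-(2 * Real.pi * (k j : ℝ)) * ‖fr f k‖ ^ 2 : ℝ) : ℂ) * Complex.I := by
      have h2 : (starRingEnd ℂ) 2 = 2 := by
        rw [← Complex.ofReal_ofNat, Complex.conj_ofReal]
      have h3 : (starRingEnd ℂ) (k j : ℂ) = (k j : ℂ) := map_intCast (starRingEnd ℂ) (k j)
      rw [h2, h3]
      have h4 : fr f k * (starRingEnd ℂ) (fr f k) = ((‖fr f k‖ ^ 2 : ℝ) : ℂ) := by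
        rw [Complex.mul_conj, Complex.normSq_eq_norm_sq]
      push_cast at h4 ⊢
      linear_combination (-(2 * (Real.pi : ℂ) * (k j : ℂ) * Complex.I)) * h4
    rw [e, Complex.re_ofReal_mul, Complex.I_re, mul_zero, mul_zero]
  rw [tsum_congr this, tsum_zero]

theorem BB_press {v : Fin 3 → V → ℝ} (hv : ∀ i, SP (v i)) (hdiv : ∀ x, ∑ i, pd i (v i) x = 0)
    {q : V → ℝ} (hq : SP q) {σ : ℝ} (hσ : 0 ≤ σ) : ∑ i, BB σ (v i) (pd i q) = 0 := by
  unfold BB
  rw [← Summable.tsum_finsetSum fun i _ => summable_BB hσ (hv i) (hq.pd i).cont]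
  have : ∀ k, ∑ i, mm k ^ σ * (fr (v i) k * (starRingEnd ℂ) (fr (pd i q) k)).re = 0 := by
    intro k
    rw [← Finset.mul_sum, ← Complex.re_sum]
    have e : ∑ i, fr (v i) k * (starRingEnd ℂ) (fr (pd i q) k)
        = (∑ i, (k i : ℂ) * fr (v i) k) * ((starRingEnd ℂ) (2 * Real.pi * Complex.I * fr q k)) := by
      rw [Finset.sum_mul]
      refine Finset.sum_congr rfl fun i _ => ?_
      rw [fr_pd hq, D]
      have h3 : (starRingEnd ℂ) (k i : ℂ) = (k i : ℂ) := map_intCast (starRingEnd ℂ) (k i)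
      rw [map_mul, map_mul, h3, map_mul (starRingEnd ℂ) (2 * (Real.pi : ℂ) * Complex.I)]
      ring
    rw [e, fr_div hv hdiv, zero_mul, Complex.zero_re, mul_zero]
  rw [tsum_congr this, tsum_zero]

/-- The production. -/
theorem prod_eq {v : V → V} (hv : ∀ i, SP (fun y => v y i))
    (hdiv : ∀ x, ∑ i, pd i (fun y => v y i) x = 0) (c : V) :
    -∑ i, ∫ x in cube, conv (fun i y => v y i) i x * Lam 1 (fun y => v y i) x
      = ∫ x in cube, triple (v x - c) (vort v x) (LamV 1 v x) := by
  have hL : ∀ i, Continuous (Lam 1 fun y => v y i) := fun i => Lam_cont zero_le_one (hv i)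
  -- the kinetic energy in the moving frame
  obtain ⟨q, hq⟩ : ∃ q : V → ℝ, q = fun x => ∑ j, (v x j * v x j) := ⟨_, rfl⟩
  have hqs : SP q := by
    rw [hq]
    exact SP.sum fun j _ => (hv j).mul (hv j)
  obtain ⟨q2, hq2⟩ : ∃ q2 : V → ℝ, q2 = fun x => ∑ j, c j * v x j := ⟨_, rfl⟩
  have hcv : ∀ j, SP (fun x => c j * v x j) := fun j =>
    ⟨contDiff_const.mul (hv j).smooth, fun i x => congrArg (fun y => c j * y) ((hv j).per i x)⟩
  have hq2s : SP q2 := by
    rw [hq2]
    exact SP.sum fun j _ => hcv j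
  have hpq : ∀ i x, pd i q x = 2 * ∑ j, v x j * pd i (fun y => v y j) x := by
    intro i x
    rw [hq, pd_sum (fun j _ => (hv j).mul (hv j)) i x, Finset.mul_sum]
    refine Finset.sum_congr rfl fun j _ => ?_
    rw [pd_mul (hv j) (hv j)]
    ring
  have hpq2 : ∀ i x, pd i q2 x = ∑ j, c j * pd i (fun y => v y j) x := by
    intro i x
    rw [hq2, pd_sum (fun j _ => hcv j) i x]
    refine Finset.sum_congr rfl fun j _ => ?_
    unfold pd
    have h1 : HasFDerivAt (fun y => c j * v y j) _ x := ((hv j).diff x).hasFDerivAt.const_mul (c j)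
    rw [h1.fderiv]
    rfl
  -- pointwise
  have hpt : ∀ x, triple (v x - c) (vort v x) (LamV 1 v x)
      = -∑ i, conv (fun i y => v y i) i x * Lam 1 (fun y => v y i) x
        + (1 / 2) * ∑ i, pd i q x * Lam 1 (fun y => v y i) x
        - ∑ i, pd i q2 x * Lam 1 (fun y => v y i) x
        + ∑ j, c j * ∑ i, pd j (fun y => v y i) x * Lam 1 (fun y => v y i) x := by
    intro x
    rw [triple_eq]
    simp only [hpq, hpq2, conv, vort, gradM, LamV, Fin.sum_univ_three, Pi.sub_apply,
      Matrix.of_apply, Matrix.cons_val_zero, Matrix.cons_val_one, Matrix.cons_val]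
    ring
  have hI1 : ∀ i, IntegrableOn (fun x => conv (fun i y => v y i) i x *
      Lam 1 (fun y => v y i) x) cube := fun i =>
    integrableOn_cube ((sp_conv (v := fun i y => v y i) hv i).cont.mul (hL i))
  have hI2 : ∀ i, IntegrableOn (fun x => pd i q x * Lam 1 (fun y => v y i) x) cube := fun i =>
    integrableOn_cube ((hqs.pd i).cont.mul (hL i))
  have hI3 : ∀ i, IntegrableOn (fun x => pd i q2 x * Lam 1 (fun y => v y i) x) cube := fun i =>
    integrableOn_cube ((hq2s.pd i).cont.mul (hL i))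
  have hI4 : ∀ j i, IntegrableOn (fun x => pd j (fun y => v y i) x *
      Lam 1 (fun y => v y i) x) cube := fun j i =>
    integrableOn_cube (((hv i).pd j).cont.mul (hL i))
  have z2 : ∫ x in cube, ∑ i, pd i q x * Lam 1 (fun y => v y i) x = 0 := by
    rw [integral_finsetSum _ fun i _ => hI2 i]
    rw [← BB_press hv hdiv hqs zero_le_one]
    exact Finset.sum_congr rfl fun i _ => int_Lam_eq zero_le_one (hv i) (hqs.pd i).cont
  have z3 : ∫ x in cube, ∑ i, pd i q2 x * Lam 1 (fun y => v y i) x = 0 := by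
    rw [integral_finsetSum _ fun i _ => hI3 i]
    rw [← BB_press hv hdiv hq2s zero_le_one]
    exact Finset.sum_congr rfl fun i _ => int_Lam_eq zero_le_one (hv i) (hq2s.pd i).cont
  have z4 : ∫ x in cube, ∑ j, c j * ∑ i, pd j (fun y => v y i) x * Lam 1 (fun y => v y i) x
      = 0 := by
    rw [integral_finsetSum _ fun j _ => (integrable_finsetSum _ fun i _ => hI4 j i).const_mul (c j)]
    refine Finset.sum_eq_zero fun j _ => ?_
    rw [integral_const_mul, integral_finsetSum _ fun i _ => hI4 j i]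
    have : ∀ i, ∫ x in cube, pd j (fun y => v y i) x * Lam 1 (fun y => v y i) x = 0 := by
      intro i
      rw [int_Lam_eq zero_le_one (hv i) ((hv i).pd j).cont, BB_pd (hv i)]
    simp [this]
  simp_rw [hpt]
  have J1 : IntegrableOn (fun x => -∑ i, conv (fun i y => v y i) i x *
      Lam 1 (fun y => v y i) x) cube := (integrable_finsetSum _ fun i _ => hI1 i).neg
  have J2 : IntegrableOn (fun x => (1 / 2) * ∑ i, pd i q x * Lam 1 (fun y => v y i) x) cube :=
    (integrable_finsetSum _ fun i _ => hI2 i).const_mul _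
  have J3 : IntegrableOn (fun x => ∑ i, pd i q2 x * Lam 1 (fun y => v y i) x) cube :=
    integrable_finsetSum _ fun i _ => hI3 i
  have J4 : IntegrableOn (fun x => ∑ j, c j * ∑ i, pd j (fun y => v y i) x *
      Lam 1 (fun y => v y i) x) cube :=
    integrable_finsetSum _ fun j _ => (integrable_finsetSum _ fun i _ => hI4 j i).const_mul (c j)
  have J12 : IntegrableOn (fun x => -∑ i, conv (fun i y => v y i) i x *
      Lam 1 (fun y => v y i) x + (1 / 2) * ∑ i, pd i q x * Lam 1 (fun y => v y i) x) cube :=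
    J1.add J2
  have J123 : IntegrableOn (fun x => -∑ i, conv (fun i y => v y i) i x *
      Lam 1 (fun y => v y i) x + (1 / 2) * ∑ i, pd i q x * Lam 1 (fun y => v y i) x
      - ∑ i, pd i q2 x * Lam 1 (fun y => v y i) x) cube := J12.sub J3
  rw [integral_add J123 J4, integral_sub J12 J3, integral_add J1 J2, integral_neg,
    integral_const_mul, z2, z3, z4, integral_finsetSum _ fun i _ => hI1 i]
  ring

/-- The square of the norm of order one half. -/
noncomputable def XX (v : V → V) : ℝ := ∑ i, BB 1 (fun y => v y i) (fun y => v y i)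

/-- The square of the norm of order three halves. -/
noncomputable def YY (v : V → V) : ℝ := ∑ i, BB 3 (fun y => v y i) (fun y => v y i)

theorem XX_nn (v : V → V) : 0 ≤ XX v := Finset.sum_nonneg fun _ _ => BB_nn _ _

theorem YY_nn (v : V → V) : 0 ≤ YY v := Finset.sum_nonneg fun _ _ => BB_nn _ _

section

variable {ν T : ℝ} {u : ℝ → V → V} {p : ℝ → V → ℝ}

theorem XX_hasDerivAt (h : IsSol ν T u p) {t : ℝ} (ht : t ∈ Ioo 0 T) (c : V) :
    HasDerivAt (fun s => XX (u s)) (-(2 * ν * YY (u t))
      + 2 * ∫ x in cube, triple (u t x - c) (vort (u t) x) (LamV 1 (u t) x)) t := by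
  have hI : t ∈ Ico 0 T := ⟨ht.1.le, ht.2⟩
  have hsp : ∀ i, SP (fun y => u t y i) := fun i => h.sp hI i
  have hdiv : ∀ x, ∑ i, pd i (fun y => u t y i) x = 0 := h.divfree t hI
  have h1 : HasDerivAt (fun s => XX (u s))
      (∑ i, 2 * BB 1 (fun y => u t y i) (dt (fun s y => u s y i) t)) t := by
    unfold XX
    refine HasDerivAt.fun_sum fun i _ => ?_
    exact hasDerivAt_BB (f := fun s y => u s y i) (h.smooth_c i)
      (fun s hs => (h.sp hs i).per) ht (h.sp_dt ht i)
  refine h1.congr_deriv ?_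
  have e1 : ∀ i, BB 1 (fun y => u t y i) (dt (fun s y => u s y i) t)
      = -(ν * BB 3 (fun y => u t y i) (fun y => u t y i))
        - (∫ x in cube, conv (fun i y => u t y i) i x * Lam 1 (fun y => u t y i) x)
        - BB 1 (fun y => u t y i) (pd i (p t)) := by
    intro i
    have hc : SP (conv (fun i y => u t y i) i) := sp_conv (v := fun i y => u t y i) hsp i
    have hl : SP (fun x => ν * lap (fun y => u t y i) x) :=
      ⟨contDiff_const.mul (hsp i).lap.smooth, fun j x => by simp only [(hsp i).lap.per j x]⟩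
    have hp := (h.sp_p hI).pd i
    have e : dt (fun s y => u s y i) t = fun x => (ν * lap (fun y => u t y i) x
        - conv (fun i y => u t y i) i x) - pd i (p t) x := by
      funext x
      rw [h.dt_eq ht]
    rw [e, BB_sub_right zero_le_one (hl.sub hc) hp (hsp i).cont,
      BB_sub_right zero_le_one hl hc (hsp i).cont, BB_smul_right, BB_symm 1 _ (lap _),
      BB_lap (hsp i), int_Lam_eq zero_le_one (hsp i) hc.cont]
    ring
  simp_rw [e1]
  have e2 := prod_eq hsp hdiv c
  have e3 := BB_press hsp hdiv (h.sp_p hI) zero_le_one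
  rw [← e2]
  unfold YY
  rw [← Finset.mul_sum, Finset.sum_sub_distrib, Finset.sum_sub_distrib, Finset.sum_neg_distrib,
    ← Finset.mul_sum, e3]
  ring

theorem XX_continuousOn (h : IsSol ν T u p) : ContinuousOn (fun s => XX (u s)) (Ico 0 T) := by
  unfold XX
  refine continuousOn_finsetSum _ fun i _ => ?_
  exact continuousOn_BB (f := fun s y => u s y i) (g := fun s y => u s y i) (h.smooth_c i)
    (h.smooth_c i) (fun s hs => (h.sp hs i).per) (fun s hs => (h.sp hs i).per)

theorem YY_continuousOn (h : IsSol ν T u p) : ContinuousOn (fun s => YY (u s)) (Ico 0 T) := by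
  have e : ∀ s ∈ Ico 0 T, YY (u s) = ∑ i, -BB 1 (lap fun y => u s y i) (fun y => u s y i) := by
    intro s hs
    unfold YY
    refine Finset.sum_congr rfl fun i _ => ?_
    rw [BB_lap (h.sp hs i), neg_neg]
  refine ContinuousOn.congr ?_ e
  refine continuousOn_finsetSum _ fun i _ => ContinuousOn.neg ?_
  exact continuousOn_BB (f := fun s => lap fun y => u s y i) (g := fun s y => u s y i)
    (contDiffOn_lap (f := fun s y => u s y i) (h.smooth_c i)) (h.smooth_c i)
    (fun s hs => (h.sp hs i).lap.per) (fun s hs => (h.sp hs i).per)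

end

end Pool.Agent.Helper21K2
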