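import Pool.Agent.Helper21K2.Lat

/-!
The Sobolev inequality of fractional order on the torus (helper21).
-/

set_option autoImplicit false

open MeasureTheory Set Filter Topology
open scoped ContDiff ENNReal NNReal

namespace Pool.Agent.Helper21K2

open H459R3.NS

theorem S_split {a : K3 → ℂ} (ha : Rap a) (R : Set K3) (x : V) :
    S a x = S (R.indicator a) x + S (Rᶜ.indicator a) x := by
  unfold S
  rw [← (summable_term (ha.ind R).summable x).tsum_add (summable_term (ha.ind Rᶜ).summable x)]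
  refine tsum_congr fun k => ?_
  rw [← add_mul]
  congr 1
  have := congrFun (indicator_self_add_compl R a) k
  exact this.symm

theorem meas_high_le {a : K3 → ℂ} (ha : Rap a) (R : Set K3) {l : ℝ} (hl : 0 < l) :
    volume.restrict cube {x | l / 2 < ‖S (R.indicator a) x‖} * ENNReal.ofReal (l ^ 2 / 4)
      ≤ ∑' k, ENNReal.ofReal (‖R.indicator a k‖ ^ 2) := by
  have hs := (ha.ind R).summable
  have hc := (S_continuous hs).norm
  have h1 : volume.restrict cube {x | l / 2 < ‖S (R.indicator a) x‖} ≤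
      volume.restrict cube {x | ENNReal.ofReal (l ^ 2 / 4) ≤
        ENNReal.ofReal (‖S (R.indicator a) x‖ ^ 2)} := by
    refine measure_mono fun x hx => ?_
    have hx' : l / 2 < ‖S (R.indicator a) x‖ := hx
    refine ENNReal.ofReal_le_ofReal ?_
    nlinarith
  have h2 := mul_meas_ge_le_lintegral₀ (μ := volume.restrict cube)
    (f := fun x => ENNReal.ofReal (‖S (R.indicator a) x‖ ^ 2))
    ((hc.pow 2).measurable.ennreal_ofReal.aemeasurable) (ENNReal.ofReal (l ^ 2 / 4))
  have h3 : ∫⁻ x in cube, ENNReal.ofReal (‖S (R.indicator a) x‖ ^ 2)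
      = ∑' k, ENNReal.ofReal (‖R.indicator a k‖ ^ 2) := by
    rw [← ofReal_integral_eq_lintegral_ofReal (f := fun x => ‖S (R.indicator a) x‖ ^ 2)
      (integrableOn_cube (hc.pow 2))
      (Eventually.of_forall fun x => sq_nonneg _), integral_norm_sq hs, n2_sq,
      ENNReal.ofReal_tsum_of_nonneg (fun _ => by positivity) (summable_sq hs)]
  calc volume.restrict cube {x | l / 2 < ‖S (R.indicator a) x‖} * ENNReal.ofReal (l ^ 2 / 4)
      ≤ volume.restrict cube {x | ENNReal.ofReal (l ^ 2 / 4) ≤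
        ENNReal.ofReal (‖S (R.indicator a) x‖ ^ 2)} * ENNReal.ofReal (l ^ 2 / 4) := by gcongr
    _ = ENNReal.ofReal (l ^ 2 / 4) * volume.restrict cube {x | ENNReal.ofReal (l ^ 2 / 4) ≤
        ENNReal.ofReal (‖S (R.indicator a) x‖ ^ 2)} := mul_comm _ _
    _ ≤ _ := h2
    _ = _ := h3

theorem lint_rpow {r L : ℝ} (hr : 2 < r) (hL : 0 ≤ L) :
    ∫⁻ t in Ioo 0 L, ENNReal.ofReal (t ^ (r - 3)) = ENNReal.ofReal (L ^ (r - 2) / (r - 2)) := by
  have hi : IntervalIntegrable (fun t : ℝ => t ^ (r - 3)) volume 0 L :=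
    intervalIntegral.intervalIntegrable_rpow' (by linarith)
  have hi2 : IntegrableOn (fun t : ℝ => t ^ (r - 3)) (Ioo 0 L) :=
    (intervalIntegrable_iff_integrableOn_Ioo_of_le hL).1 hi
  rw [← ofReal_integral_eq_lintegral_ofReal hi2, ← integral_Ioc_eq_integral_Ioo,
    ← intervalIntegral.integral_of_le hL, integral_rpow (Or.inl (by linarith))]
  · rw [show r - 3 + 1 = r - 2 by ring, Real.zero_rpow (by linarith), sub_zero]
  · filter_upwards [ae_restrict_mem measurableSet_Ioo] with t ht
    exact Real.rpow_nonneg ht.1.le _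

/-- The Sobolev inequality of order `s`, `0 < s < 3/2`. -/
theorem sob_lint {s : ℝ} (h0 : 0 < s) (h1 : s < 3 / 2) : ∃ C : ℝ, 0 < C ∧ ∀ a : K3 → ℂ, Rap a →
    a 0 = 0 → ∫⁻ x in cube, ENNReal.ofReal (‖S a x‖ ^ (3 / (3 / 2 - s))) ≤
      ENNReal.ofReal (C * √(HH s a) ^ (3 / (3 / 2 - s))) := by
  obtain ⟨C₁, hC₁, hlow⟩ := low_le h0.le h1
  obtain ⟨δ, hδ⟩ : ∃ δ : ℝ, δ = 3 / 2 - s := ⟨_, rfl⟩
  have hδ0 : 0 < δ := by rw [hδ]; linarith
  obtain ⟨r, hr⟩ : ∃ r : ℝ, r = 3 / δ := ⟨_, rfl⟩
  have hr2 : 2 < r := by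
    rw [hr, lt_div_iff₀ hδ0, hδ]
    linarith
  have hr0 : 0 < r := by linarith
  have hδr : δ * (r - 2) = 2 * s := by
    have h2 : δ * (r - 2) = 3 - 2 * δ := by
      rw [hr]
      field_simp
    rw [h2, hδ]
    ring
  rw [← hδ, ← hr]
  refine ⟨r * (4 * (2 * C₁) ^ (r - 2) / (r - 2)), by
    have : 0 < r - 2 := by linarith
    positivity, fun a ha h00 => ?_⟩
  obtain ⟨A, hA⟩ : ∃ A : ℝ, A = √(HH s a) := ⟨_, rfl⟩
  have hA0 : 0 ≤ A := by rw [hA]; exact Real.sqrt_nonneg _
  have hA2 : A ^ 2 = HH s a := by rw [hA]; exact Real.sq_sqrt (HH_nn s a)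
  rw [← hA]
  have hHs := rap_sq ha (σ := 2 * s) (by positivity)
  rcases hA0.eq_or_lt with hAz | hAp
  · -- the trivial case
    have hz : ∀ k, a k = 0 := by
      intro k
      by_cases hk : k = 0
      · rw [hk]; exact h00
      · have h2 : (N k : ℝ) ^ (2 * s) * ‖a k‖ ^ 2 ≤ HH s a :=
          hHs.le_tsum k fun _ _ => by positivity
        rw [← hA2, ← hAz] at h2
        have h3 : 0 < (N k : ℝ) ^ (2 * s) := Real.rpow_pos_of_pos (by linarith [N_pos hk]) _
        have h4 : ‖a k‖ ^ 2 ≤ 0 := by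
          by_contra hc
          push Not at hc
          nlinarith [mul_pos h3 hc]
        have h5 : ‖a k‖ = 0 := by nlinarith [norm_nonneg (a k)]
        exact norm_eq_zero.1 h5
    have hS : ∀ x, S a x = 0 := by
      intro x
      unfold S
      simp [hz]
    simp_rw [hS]
    rw [norm_zero, Real.zero_rpow hr0.ne']
    simp
  -- the layer cake formula
  have hc := (S_continuous ha.summable).norm
  rw [lintegral_rpow_eq_lintegral_meas_lt_mul (volume.restrict cube)
    (f := fun x => ‖S a x‖) (Eventually.of_forall fun x => norm_nonneg _)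
    hc.measurable.aemeasurable hr0]
  obtain ⟨L, hL⟩ : ∃ L : K3 → ℝ, L = fun k => 2 * C₁ * A * (N k : ℝ) ^ δ := ⟨_, rfl⟩
  have hL0 : ∀ k, 0 ≤ L k := fun k => by rw [hL]; positivity
  have hkey : ∀ l ∈ Ioi (0 : ℝ), volume.restrict cube {x | l < ‖S a x‖} *
      ENNReal.ofReal (l ^ (r - 1)) ≤ ∑' k, (Ioo 0 (L k)).indicator
        (fun l => ENNReal.ofReal (4 * ‖a k‖ ^ 2) * ENNReal.ofReal (l ^ (r - 3))) l := by
    intro l hl
    have hl0 : 0 < l := hl
    obtain ⟨M, hM⟩ : ∃ M : ℝ, M = (l / (2 * C₁ * A)) ^ (1 / δ) := ⟨_, rfl⟩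
    have hM0 : 0 ≤ M := by rw [hM]; positivity
    have hMδ : M ^ δ = l / (2 * C₁ * A) := by
      rw [hM, ← Real.rpow_mul (by positivity)]
      have : 1 / δ * δ = 1 := by field_simp
      rw [this, Real.rpow_one]
    obtain ⟨m, hm⟩ : ∃ m : ℕ, m = ⌊M⌋₊ := ⟨_, rfl⟩
    have hmM : (m : ℝ) ≤ M := by rw [hm]; exact Nat.floor_le hM0
    have hlo : ∀ x, ‖S ({k | N k ≤ m}.indicator a) x‖ ≤ l / 2 := by
      intro x
      refine (hlow a ha h00 m x).trans ?_
      rw [← hA, ← hδ]
      calc C₁ * (m : ℝ) ^ δ * A ≤ C₁ * M ^ δ * A := by gcongr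
        _ = l / 2 := by
            rw [hMδ]
            field_simp
    have h2 : volume.restrict cube {x | l < ‖S a x‖} ≤
        volume.restrict cube {x | l / 2 < ‖S ({k | N k ≤ m}ᶜ.indicator a) x‖} := by
      refine measure_mono fun x hx => ?_
      have hx' : l < ‖S a x‖ := hx
      have h3 := S_split ha {k | N k ≤ m} x
      have h4 := norm_add_le (S ({k | N k ≤ m}.indicator a) x) (S ({k | N k ≤ m}ᶜ.indicator a) x)
      rw [← h3] at h4
      have h5 := hlo x
      show l / 2 < _
      linarith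
    have h3 := meas_high_le ha {k | N k ≤ m}ᶜ hl0
    have e1 : l ^ (r - 1) = (l ^ 2 / 4) * (4 * l ^ (r - 3)) := by
      have : l ^ (r - 1) = l ^ 2 * l ^ (r - 3) := by
        rw [← Real.rpow_natCast, ← Real.rpow_add hl0]
        congr 1
        push_cast
        ring
      rw [this]
      ring
    rw [e1, ENNReal.ofReal_mul (by positivity), ← mul_assoc]
    calc volume.restrict cube {x | l < ‖S a x‖} * ENNReal.ofReal (l ^ 2 / 4) *
          ENNReal.ofReal (4 * l ^ (r - 3))
        ≤ (∑' k, ENNReal.ofReal (‖{k | N k ≤ m}ᶜ.indicator a k‖ ^ 2)) *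
          ENNReal.ofReal (4 * l ^ (r - 3)) := by
          gcongr
          exact (mul_le_mul_left h2 _).trans h3
      _ = ∑' k, ENNReal.ofReal (‖{k | N k ≤ m}ᶜ.indicator a k‖ ^ 2) *
          ENNReal.ofReal (4 * l ^ (r - 3)) := by rw [ENNReal.tsum_mul_right]
      _ ≤ _ := by
          refine ENNReal.tsum_le_tsum fun k => ?_
          by_cases hk : N k ≤ m
          · rw [indicator_of_notMem (show k ∉ {k | N k ≤ m}ᶜ from fun h => h hk)]
            simp
          · have hkm : k ∈ {k | N k ≤ m}ᶜ := hk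
            rw [indicator_of_mem hkm]
            have hlL : l < L k := by
              have h6 : M < N k := by
                rw [hm, not_le] at hk
                exact (Nat.floor_lt hM0).1 hk
              have h7 : M ^ δ < (N k : ℝ) ^ δ := Real.rpow_lt_rpow hM0 h6 hδ0
              rw [hMδ, div_lt_iff₀ (by positivity)] at h7
              rw [hL]
              linarith
            rw [indicator_of_mem (show l ∈ Ioo 0 (L k) from ⟨hl0, hlL⟩),
              ← ENNReal.ofReal_mul (by positivity), ← ENNReal.ofReal_mul (by positivity)]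
            refine ENNReal.ofReal_le_ofReal (le_of_eq ?_)
            ring
  calc ENNReal.ofReal r * ∫⁻ l in Ioi 0, volume.restrict cube {x | l < ‖S a x‖} *
        ENNReal.ofReal (l ^ (r - 1))
      ≤ ENNReal.ofReal r * ∫⁻ l in Ioi 0, ∑' k, (Ioo 0 (L k)).indicator
        (fun l => ENNReal.ofReal (4 * ‖a k‖ ^ 2) * ENNReal.ofReal (l ^ (r - 3))) l := by
        gcongr ENNReal.ofReal r * ?_
        exact setLIntegral_mono' measurableSet_Ioi hkey
    _ = ENNReal.ofReal r * ∑' k, ∫⁻ l in Ioi 0, (Ioo 0 (L k)).indicator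
        (fun l => ENNReal.ofReal (4 * ‖a k‖ ^ 2) * ENNReal.ofReal (l ^ (r - 3))) l := by
        rw [lintegral_tsum fun k => ?_]
        refine Measurable.aemeasurable ?_
        refine Measurable.indicator ?_ measurableSet_Ioo
        fun_prop
    _ = ENNReal.ofReal r * ∑' k, ENNReal.ofReal (4 * (2 * C₁ * A) ^ (r - 2) / (r - 2) *
        ((N k : ℝ) ^ (2 * s) * ‖a k‖ ^ 2)) := by
        congr 1
        refine tsum_congr fun k => ?_
        have hsub : Ioo 0 (L k) ∩ Ioi 0 = Ioo 0 (L k) := inter_eq_left.2 fun l hl => hl.1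
        rw [lintegral_indicator measurableSet_Ioo, Measure.restrict_restrict measurableSet_Ioo,
          hsub,
          lintegral_const_mul _ (by fun_prop), lint_rpow hr2 (hL0 k),
          ← ENNReal.ofReal_mul (by positivity)]
        congr 1
        have e2 : L k ^ (r - 2) = (2 * C₁ * A) ^ (r - 2) * (N k : ℝ) ^ (2 * s) := by
          rw [hL]
          simp only
          rw [Real.mul_rpow (by positivity) (by positivity), ← Real.rpow_mul (by positivity), hδr]
        rw [e2]
        ring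
    _ = ENNReal.ofReal (r * (4 * (2 * C₁ * A) ^ (r - 2) / (r - 2) * HH s a)) := by
        have hq : 0 ≤ 4 * (2 * C₁ * A) ^ (r - 2) / (r - 2) := by
          have : 0 < r - 2 := by linarith
          positivity
        rw [← ENNReal.ofReal_tsum_of_nonneg (fun k => mul_nonneg hq (by positivity))
          (hHs.mul_left _), tsum_mul_left, ← ENNReal.ofReal_mul hr0.le]
        rfl
    _ ≤ _ := by
        refine ENNReal.ofReal_le_ofReal (le_of_eq ?_)
        rw [← hA2, Real.mul_rpow (by positivity) hA0]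
        have e3 : A ^ r = A ^ (r - 2) * A ^ 2 := by
          rw [← Real.rpow_natCast A 2, ← Real.rpow_add hAp]
          congr 1
          push_cast
          ring
        rw [e3]
        ring

end Pool.Agent.Helper21K2
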